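import Mathlib

set_option autoImplicit false

open Polynomial Finset

namespace Pool.Agent.Helper766

/-- sums of cosines over equally spaced nodes -/
lemma sum_cos_nodes {M j : ℕ} (hM : 0 < M) (hj : 0 < j) (hjM : j < M) :
    ∑ k ∈ range M, Real.cos (j * (2 * Real.pi * k / M)) = 0 := by
  have hMR : (0 : ℝ) < M := by exact_mod_cast hM
  set w : ℂ := Complex.exp (((2 * Real.pi * j / M : ℝ) : ℂ) * Complex.I) with hw
  have hwne : w ≠ 1 := by
    intro h
    have h1 := congrArg Complex.re h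
    rw [hw, Complex.exp_ofReal_mul_I_re, Complex.one_re] at h1
    have h0 : 0 < 2 * Real.pi * j / M := by positivity
    have h2 : 2 * Real.pi * j / M < 2 * Real.pi := by
      rw [div_lt_iff₀ hMR]
      have : (j : ℝ) < M := by exact_mod_cast hjM
      nlinarith [Real.pi_pos]
    have h3 := (Real.cos_eq_one_iff_of_lt_of_lt (by linarith) h2).mp h1
    linarith
  have hwM : w ^ M = 1 := by
    rw [hw, ← Complex.exp_nat_mul]
    have : (M : ℂ) * (((2 * Real.pi * j / M : ℝ) : ℂ) * Complex.I) =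
        (j : ℂ) * (2 * Real.pi * Complex.I) := by
      push_cast
      have : (M : ℂ) ≠ 0 := by exact_mod_cast hMR.ne'
      field_simp
    rw [this]
    have := Complex.exp_nat_mul_two_pi_mul_I j
    exact this
  have hsum : ∑ k ∈ range M, w ^ k = 0 := by
    have := geom_sum_mul w M
    rw [hwM, sub_self] at this
    exact (mul_eq_zero.mp this).resolve_right (sub_ne_zero.mpr hwne)
  have h4 := congrArg Complex.re hsum
  rw [Complex.re_sum, Complex.zero_re] at h4
  rw [← h4]
  apply sum_congr rfl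
  intro k _
  rw [hw, ← Complex.exp_nat_mul]
  have : (k : ℂ) * (((2 * Real.pi * j / M : ℝ) : ℂ) * Complex.I) =
      ((j * (2 * Real.pi * k / M) : ℝ) : ℂ) * Complex.I := by
    push_cast; ring
  rw [this, Complex.exp_ofReal_mul_I_re]

/-- node values -/
noncomputable def nd (M k : ℕ) : ℝ := Real.cos (2 * Real.pi * k / M)

lemma sum_T_nodes {M j : ℕ} (hM : 0 < M) (hj : 0 < j) (hjM : j < M) :
    ∑ k ∈ range M, (Chebyshev.T ℝ (j : ℤ)).eval (nd M k) = 0 := by
  rw [← sum_cos_nodes hM hj hjM]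
  apply sum_congr rfl
  intro k _
  unfold nd
  rw [Chebyshev.T_real_cos]
  simp

/-- `Σ_k U_{j-1}(x_k) (1 - x_k) = (-1)^{j+1} M` -/
lemma sum_U_nodes {M : ℕ} (hM : 3 ≤ M) (j : ℕ) (hj : j + 1 < M) :
    ∑ k ∈ range M, (Chebyshev.U ℝ (j : ℤ)).eval (nd M k) * (1 - nd M k) = (-1) ^ j * M := by
  induction j with
  | zero =>
    have h1 := sum_T_nodes (M := M) (j := 1) (by omega) one_pos (by omega)
    simp only [Nat.cast_one, Chebyshev.T_one, eval_X] at h1
    simp only [Nat.cast_zero, Chebyshev.U_zero, eval_one, one_mul, pow_zero]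
    rw [sum_sub_distrib, h1]
    simp
  | succ j ih =>
    have ih' := ih (by omega)
    have h1 := sum_T_nodes (M := M) (j := j + 1) (by omega) (by omega) (by omega)
    have h2 := sum_T_nodes (M := M) (j := j + 2) (by omega) (by omega) (by omega)
    have e : ∀ x : ℝ, (Chebyshev.U ℝ ((j + 1 : ℕ) : ℤ)).eval x * (1 - x) =
        -((Chebyshev.U ℝ (j : ℤ)).eval x * (1 - x)) +
        ((Chebyshev.T ℝ ((j + 1 : ℕ) : ℤ)).eval x - (Chebyshev.T ℝ ((j + 2 : ℕ) : ℤ)).eval x) := by
      intro x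
      have a1 := congrArg (fun p => p.eval x) (Chebyshev.T_eq_U_sub_X_mul_U ℝ ((j : ℤ) + 1))
      have a2 := congrArg (fun p => p.eval x) (Chebyshev.T_eq_X_mul_U_sub_U ℝ (j : ℤ))
      simp only [eval_sub, eval_mul, eval_X] at a1 a2
      rw [add_sub_cancel_right] at a1
      push_cast
      rw [a1, a2]
      ring
    rw [sum_congr rfl (fun k _ => e (nd M k)), sum_add_distrib, sum_neg_distrib, ih',
      sum_sub_distrib, h1, h2]
    ring

/-- `Σ_k U_{j-1}(x_k) (1 - x_k²) = (M/2) δ_{j1}` -/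
lemma sum_U_sq_nodes {M : ℕ} (j : ℕ) (hj : j + 2 < M) :
    ∑ k ∈ range M, (Chebyshev.U ℝ (j : ℤ)).eval (nd M k) * (1 - nd M k ^ 2) =
      if j = 0 then (M : ℝ) / 2 else 0 := by
  have e : ∀ x : ℝ, (Chebyshev.U ℝ (j : ℤ)).eval x * (1 - x ^ 2) =
        ((Chebyshev.T ℝ (j : ℤ)).eval x - (Chebyshev.T ℝ ((j + 2 : ℕ) : ℤ)).eval x) / 2 := by
    intro x
    have a1 := congrArg (fun p => p.eval x) (Chebyshev.T_eq_X_mul_T_sub_pol_U ℝ (j : ℤ))
    have a2 := congrArg (fun p => p.eval x) (Chebyshev.T_add_two ℝ (j : ℤ))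
    simp only [eval_sub, eval_mul, eval_X, eval_ofNat, eval_pow, eval_one] at a1 a2
    push_cast
    linear_combination a1 - a2 / 2
  rw [sum_congr rfl (fun k _ => e (nd M k)), ← sum_div, sum_sub_distrib,
    sum_T_nodes (M := M) (j := j + 2) (by omega) (by omega) (by omega)]
  by_cases h : j = 0
  · subst h
    simp
  · rw [sum_T_nodes (M := M) (j := j) (by omega) (by omega) (by omega)]
    simp [h]

end Pool.Agent.Helper766
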