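import Mathlib

set_option autoImplicit false

open Polynomial

namespace Pool.Agent.Helper766

/-- Values of a polynomial and of its first three derivatives at a point to the right of
all (real) roots. -/
structure Good (p : ℝ[X]) (x : ℝ) : Prop where
  h0 : 0 < p.eval x
  h1 : 0 ≤ (derivative p).eval x
  h2 : 0 ≤ (derivative (derivative p)).eval x
  h3 : 0 ≤ (derivative (derivative (derivative p))).eval x
  l1 : p.eval x * (derivative (derivative p)).eval x ≤ (derivative p).eval x ^ 2
  l2 : (derivative p).eval x * (derivative (derivative (derivative p))).eval x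
      ≤ (derivative (derivative p)).eval x ^ 2
  l3 : p.eval x * (derivative (derivative (derivative p))).eval x
      ≤ (derivative p).eval x * (derivative (derivative p)).eval x

lemma good_C {k x : ℝ} (hk : 0 < k) : Good (C k) x := by
  constructor <;> simp [hk]

lemma d1_mul (p : ℝ[X]) (a x : ℝ) : (derivative ((X - C a) * p)).eval x =
    p.eval x + (x - a) * (derivative p).eval x := by
  simp

lemma d2_mul (p : ℝ[X]) (a x : ℝ) : (derivative (derivative ((X - C a) * p))).eval x =
    2 * (derivative p).eval x + (x - a) * (derivative (derivative p)).eval x := by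
  simp
  ring

lemma d3_mul (p : ℝ[X]) (a x : ℝ) :
    (derivative (derivative (derivative ((X - C a) * p)))).eval x =
    3 * (derivative (derivative p)).eval x +
      (x - a) * (derivative (derivative (derivative p))).eval x := by
  simp
  ring

lemma Good.mul {p : ℝ[X]} {x : ℝ} (h : Good p x) {a : ℝ} (ha : a < x) :
    Good ((X - C a) * p) x := by
  obtain ⟨h0, h1, h2, h3, l1, l2, l3⟩ := h
  have hd : 0 < x - a := sub_pos.mpr ha
  constructor
  · simp only [eval_mul, eval_sub, eval_X, eval_C]
    exact mul_pos hd h0
  · rw [d1_mul]; positivity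
  · rw [d2_mul]; positivity
  · rw [d3_mul]; positivity
  · rw [d1_mul, d2_mul, eval_mul, eval_sub, eval_X, eval_C]
    nlinarith [mul_nonneg (sq_nonneg (x - a)) (sub_nonneg.mpr l1), sq_nonneg (p.eval x)]
  · rw [d1_mul, d2_mul, d3_mul]
    nlinarith [mul_nonneg (sq_nonneg (x - a)) (sub_nonneg.mpr l2),
      mul_nonneg hd.le (sub_nonneg.mpr l3), sq_nonneg ((derivative p).eval x)]
  · rw [d1_mul, d2_mul, d3_mul, eval_mul, eval_sub, eval_X, eval_C]
    nlinarith [mul_nonneg (sq_nonneg (x - a)) (sub_nonneg.mpr l3),
      mul_nonneg hd.le (sub_nonneg.mpr l1), mul_nonneg h0.le h1]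

lemma Good.prod {ι : Type*} (s : Finset ι) (r : ι → ℝ) {k x : ℝ} (hk : 0 < k)
    (h : ∀ i ∈ s, r i < x) : Good (C k * ∏ i ∈ s, (X - C (r i))) x := by
  classical
  induction s using Finset.induction_on with
  | empty => simpa using good_C hk
  | insert a s ha ih =>
    rw [Finset.prod_insert ha]
    have h1 := ih (fun i hi => h i (Finset.mem_insert_of_mem hi))
    have h2 := h1.mul (h a (Finset.mem_insert_self a s))
    have h3 : C k * ((X - C (r a)) * ∏ i ∈ s, (X - C (r i))) =
        (X - C (r a)) * (C k * ∏ i ∈ s, (X - C (r i))) := by ring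
    rw [h3]
    exact h2

/-- After multiplying by two more linear factors the first two derivatives are positive. -/
lemma Good.strict1 {p : ℝ[X]} {x : ℝ} (h : Good p x) {a : ℝ} (ha : a < x) :
    0 < (derivative ((X - C a) * p)).eval x := by
  rw [d1_mul]
  have := h.h0
  have := mul_nonneg (sub_pos.mpr ha).le h.h1
  linarith

lemma Good.strict2 {p : ℝ[X]} {x : ℝ} (h : Good p x) {a b : ℝ} (ha : a < x) (hb : b < x) :
    0 < (derivative (derivative ((X - C b) * ((X - C a) * p)))).eval x := by
  rw [d2_mul]
  have h1 := h.strict1 ha
  have h2 := (h.mul ha).h2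
  have := mul_nonneg (sub_pos.mpr hb).le h2
  linarith

/-- The sign of the second derivative of `(X - y) H`, where `H = (X - b) (X - a) p`. -/
lemma second_deriv_pos_of_pos {p : ℝ[X]} {a b y m : ℝ} (hab : b ≤ m) (ham : a ≤ m)
    (hp : ∀ x, m < x → Good p x) {s x : ℝ} (hs : m < s) (hsx : s ≤ x)
    (hpos : 0 < (derivative (derivative ((X - C y) * ((X - C b) * ((X - C a) * p))))).eval s) :
    0 < (derivative (derivative ((X - C y) * ((X - C b) * ((X - C a) * p))))).eval x := by
  set H : ℝ[X] := (X - C b) * ((X - C a) * p) with hH
  have hgood : ∀ t, m < t → Good H t := fun t ht =>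
    ((hp t ht).mul (lt_of_le_of_lt ham ht)).mul (lt_of_le_of_lt hab ht)
  have hH2 : ∀ t, m < t → 0 < (derivative (derivative H)).eval t := fun t ht =>
    (hp t ht).strict2 (lt_of_le_of_lt ham ht) (lt_of_le_of_lt hab ht)
  have hmono : MonotoneOn (fun t => (derivative H).eval t / (derivative (derivative H)).eval t)
      (Set.Ioi m) := by
    have hder : ∀ t ∈ Set.Ioi m, HasDerivAt
        (fun t => (derivative H).eval t / (derivative (derivative H)).eval t)
        (((derivative (derivative H)).eval t * (derivative (derivative H)).eval t -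
          (derivative H).eval t * (derivative (derivative (derivative H))).eval t) /
          (derivative (derivative H)).eval t ^ 2) t := by
      intro t ht
      exact ((derivative H).hasDerivAt t).div ((derivative (derivative H)).hasDerivAt t)
        (hH2 t ht).ne'
    apply monotoneOn_of_deriv_nonneg (convex_Ioi m)
    · intro t ht
      exact (hder t ht).continuousAt.continuousWithinAt
    · intro t ht
      rw [interior_Ioi] at ht
      exact (hder t ht).differentiableAt.differentiableWithinAt
    · intro t ht
      rw [interior_Ioi] at ht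
      rw [(hder t ht).deriv]
      have := (hgood t ht).l2
      apply div_nonneg
      · nlinarith
      · positivity
  have hx : m < x := lt_of_lt_of_le hs hsx
  have h1 := hmono hs hx hsx
  simp only at h1
  have e : ∀ t, m < t → (derivative (derivative ((X - C y) * H))).eval t =
      (derivative (derivative H)).eval t *
        (2 * ((derivative H).eval t / (derivative (derivative H)).eval t) + t - y) := by
    intro t ht
    rw [d2_mul]
    have := (hH2 t ht).ne'
    field_simp
    ring
  rw [e s hs] at hpos
  rw [e x hx]
  have h2 := (pos_iff_pos_of_mul_pos hpos).mp (hH2 s hs)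
  apply mul_pos (hH2 x hx)
  linarith

end Pool.Agent.Helper766
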