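import Mathlib
import Pool.Agent.Helper766.GoodPoly

set_option autoImplicit false

open Polynomial

namespace Pool.Agent.Helper766

/-- One sign change of `(X - c) V' - (1 + V)`. -/
lemma sign_structure (V : ℝ[X]) (m c : ℝ) (hmc : m < c)
    (hV : ∀ s x, m < s → s ≤ x → 0 < (derivative (derivative V)).eval s →
      0 < (derivative (derivative V)).eval x)
    (hVc : V.eval c = -1)
    (hV2 : 0 < (derivative (derivative V)).eval c)
    (hleft : ∀ x, -1 ≤ x → x ≤ m → ((X - C c) * derivative V - (1 + V)).eval x ≤ 0) :
    ∃ c0, m ≤ c0 ∧ c0 ≤ c ∧ ∀ x, -1 ≤ x → x ≤ 1 →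
      0 ≤ (x - c0) * ((X - C c) * derivative V - (1 + V)).eval x := by
  set P : ℝ[X] := (X - C c) * derivative V - (1 + V) with hP
  have hdP : derivative P = (X - C c) * derivative (derivative V) := by
    rw [hP]
    simp
  have hPc : P.eval c = 0 := by
    rw [hP]
    simp [hVc]
  have hder : ∀ x, HasDerivAt (fun t => P.eval t)
      ((x - c) * (derivative (derivative V)).eval x) x := by
    intro x
    have := P.hasDerivAt x
    rw [hdP] at this
    simpa using this
  have hcont : Continuous (fun t => P.eval t) := P.continuous
  set A : Set ℝ := {x | m ≤ x ∧ x ≤ c ∧ 0 ≤ P.eval x} with hA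
  have hAne : A.Nonempty := ⟨c, hmc.le, le_rfl, hPc.ge⟩
  have hAb : BddBelow A := ⟨m, fun x hx => hx.1⟩
  have hAc : IsClosed A := by
    have : A = Set.Icc m c ∩ {x | 0 ≤ P.eval x} := by
      ext x
      simp [hA, and_assoc]
    rw [this]
    exact isClosed_Icc.inter (isClosed_le continuous_const hcont)
  have hc0 : sInf A ∈ A := hAc.csInf_mem hAne hAb
  set c0 := sInf A with hc0def
  refine ⟨c0, hc0.1, hc0.2.1, ?_⟩
  intro x hx1 hx2
  rcases lt_or_ge x c0 with h | h
  · -- left of c0
    have hle : P.eval x ≤ 0 := by
      rcases le_or_gt x m with h' | h'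
      · exact hleft x hx1 h'
      · by_contra hcon
        push Not at hcon
        have : x ∈ A := ⟨h'.le, (h.trans_le hc0.2.1).le, hcon.le⟩
        have := csInf_le hAb this
        linarith
    exact mul_nonneg_of_nonpos_of_nonpos (by linarith) hle
  · have hge : 0 ≤ P.eval x := by
      rcases le_or_gt x c with hxc | hxc
      · by_contra hcon
        push Not at hcon
        have hlt : c0 < x := by
          rcases h.eq_or_lt with h' | h'
          · rw [← h'] at hcon
            linarith [hc0.2.2]
          · exact h'
        obtain ⟨s, hs, hs'⟩ := exists_hasDerivAt_eq_slope (fun t => P.eval t)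
          (fun t => (t - c) * (derivative (derivative V)).eval t) hlt
          (hcont.continuousOn) (fun t _ => hder t)
        have h1 : (P.eval x - P.eval c0) / (x - c0) < 0 := by
          apply div_neg_of_neg_of_pos
          · linarith [hc0.2.2]
          · linarith
        have hs2 : (s - c) * (derivative (derivative V)).eval s < 0 := by
          rw [hs']
          exact h1
        have hsc : s - c < 0 := by linarith [hs.2]
        have hVs : 0 < (derivative (derivative V)).eval s := by
          by_contra hneg
          push Not at hneg
          have := mul_nonneg_of_nonpos_of_nonpos hsc.le hneg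
          linarith
        have hms : m < s := lt_of_le_of_lt hc0.1 hs.1
        -- P antitone on [s, c]
        have hanti : AntitoneOn (fun t => P.eval t) (Set.Icc s c) := by
          apply antitoneOn_of_deriv_nonpos (convex_Icc s c) hcont.continuousOn
          · intro t ht
            exact (hder t).differentiableAt.differentiableWithinAt
          · intro t ht
            rw [interior_Icc] at ht
            rw [(hder t).deriv]
            have h2 := hV s t hms ht.1.le hVs
            exact mul_nonpos_of_nonpos_of_nonneg (by linarith [ht.2]) h2.le
        have h3 := hanti (⟨hs.2.le, hxc⟩ : x ∈ Set.Icc s c) (⟨(hs.2.trans_le hxc).le, le_rfl⟩ : c ∈ Set.Icc s c) hxc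
        simp only at h3
        rw [hPc] at h3
        linarith
      · -- right of c
        have hmono : MonotoneOn (fun t => P.eval t) (Set.Icc c x) := by
          apply monotoneOn_of_deriv_nonneg (convex_Icc c x) hcont.continuousOn
          · intro t ht
            exact (hder t).differentiableAt.differentiableWithinAt
          · intro t ht
            rw [interior_Icc] at ht
            rw [(hder t).deriv]
            have h2 := hV c t hmc ht.1.le hV2
            exact mul_nonneg (by linarith [ht.1]) h2.le
        have h3 := hmono (⟨le_rfl, hxc.le⟩ : c ∈ Set.Icc c x) (⟨hxc.le, le_rfl⟩ : x ∈ Set.Icc c x) hxc.le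
        simp only at h3
        rw [hPc] at h3
        exact h3
    exact mul_nonneg (by linarith) hge

end Pool.Agent.Helper766
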