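import Mathlib

set_option autoImplicit false

open Real

namespace Pool.Agent.Helper766

/-- `cos (π/M) ≥ 4/5` for `M ≥ 5`. -/
lemma cos_ge {M : ℝ} (hM : 5 ≤ M) : 4 / 5 ≤ cos (π / M) := by
  have h1 : π / M ≤ π / 5 := by
    apply div_le_div_of_nonneg_left pi_pos.le (by norm_num) hM
  have h2 : cos (π / 5) ≤ cos (π / M) := by
    apply cos_le_cos_of_nonneg_of_le_pi
    · positivity
    · have := pi_pos; linarith
    · exact h1
  have h3 : cos (π / 5) = (1 + √5) / 4 := cos_pi_div_five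
  have h4 : (11 / 5 : ℝ) ≤ √5 := by
    apply Real.le_sqrt_of_sq_le
    norm_num
  linarith

/-- the quadratic form inequality -/
lemma quad_ineq {d e g C S : ℝ} (he : 0 < e) (hg : g ^ 2 ≤ 2 * e * d)
    (hCS : C ^ 2 + S ^ 2 = 1) : g * S ≤ d + e * (1 + C) := by
  -- S^2 = (1-C)(1+C) ≤ 2 (1+C)
  have hC1 : C ≤ 1 := by nlinarith [sq_nonneg S]
  have hC2 : -1 ≤ C := by nlinarith [sq_nonneg S]
  have h1 : S ^ 2 ≤ 2 * (1 + C) := by nlinarith
  have h2 : g * S ≤ d + e * S ^ 2 / 2 := by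
    have : 0 ≤ (e * S - g) ^ 2 := sq_nonneg _
    have h3 : 2 * e * (g * S) ≤ 2 * e * (d + e * S ^ 2 / 2) := by nlinarith
    exact le_of_mul_le_mul_left h3 (by positivity)
  nlinarith

lemma one_sub_cos_lower {M : ℝ} (hM : 5 ≤ M) : 9 / 2 / M ^ 2 ≤ 1 - cos (π / M) := by
  -- 1 - cos θ = 2 sin² (θ/2)
  have hMpos : 0 < M := by linarith
  have hpi := pi_gt_d2
  have hpi2 := pi_lt_d2
  set x := π / M / 2 with hx
  have hx0 : 0 < x := by positivity
  have hx1 : x ≤ 0.315 := by
    rw [hx, div_div, div_le_iff₀ (by positivity)]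
    nlinarith
  have h1 : cos (π / M) = 1 - 2 * sin x ^ 2 := by
    have : π / M = 2 * x := by rw [hx]; ring
    rw [this, cos_two_mul, cos_sq']
    ring
  have h2 : x - x ^ 3 / 6 < sin x := sin_gt_sub_cube hx0
  have h3 : x * (1 - 0.315 ^ 2 / 4) ≤ x - x ^ 3 / 6 := by
    have : x ^ 2 ≤ 0.315 ^ 2 := by nlinarith
    nlinarith
  have h4 : 0 < x * (1 - 0.315 ^ 2 / 4) := by
    apply mul_pos hx0; norm_num
  have h5 : (x * (1 - 0.315 ^ 2 / 4)) ^ 2 ≤ sin x ^ 2 := by
    apply pow_le_pow_left₀ h4.le (by linarith)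
  rw [h1]
  have h6 : x ^ 2 = π ^ 2 / M ^ 2 / 4 := by rw [hx]; ring
  have h7 : 9 / 2 / M ^ 2 ≤ 2 * (x * (1 - 0.315 ^ 2 / 4)) ^ 2 := by
    have : 2 * (x * (1 - 0.315 ^ 2 / 4)) ^ 2 = (2 * π ^ 2 / 4 * (1 - 0.315 ^ 2 / 4) ^ 2) / M ^ 2 := by
      rw [mul_pow, h6]; ring
    rw [this]
    apply div_le_div_of_nonneg_right _ (by positivity)
    have : (3.14 : ℝ) ^ 2 ≤ π ^ 2 := by
      apply pow_le_pow_left₀ (by norm_num) hpi.le
    nlinarith
  linarith


lemma abs_sin_nat_mul_le (n : ℕ) (t : ℝ) : |sin (n * t)| ≤ n * |sin t| := by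
  induction n with
  | zero => simp
  | succ n ih =>
    push_cast
    rw [add_mul, one_mul, sin_add]
    calc |sin (n * t) * cos t + cos (n * t) * sin t|
        ≤ |sin (n * t) * cos t| + |cos (n * t) * sin t| := abs_add_le _ _
      _ = |sin (n * t)| * |cos t| + |cos (n * t)| * |sin t| := by rw [abs_mul, abs_mul]
      _ ≤ |sin (n * t)| * 1 + 1 * |sin t| := by
          gcongr
          · exact abs_cos_le_one t
          · exact abs_cos_le_one _
      _ ≤ _ := by nlinarith

lemma cos_two_sub_cos_three {θ x : ℝ} (hx : x = cos θ) :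
    cos (2 * θ) - cos (3 * θ) = (1 - x) * (4 * x ^ 2 + 2 * x - 1) := by
  rw [cos_two_mul, cos_three_mul, hx]
  ring

/-- `(6/5) (cos 2θ - cos t) ≥ sin θ sin t` on `[3θ, π]`. -/
lemma sin_mul_sin_le {θ t : ℝ} (h0 : 0 < θ) (h5 : 4 / 5 ≤ cos θ) (h3 : 3 * θ ≤ t) (hπ : t ≤ π) :
    sin θ * sin t ≤ 6 / 5 * (cos (2 * θ) - cos t) := by
  have hθπ : θ < π := by linarith
  have hsθ : 0 < sin θ := sin_pos_of_pos_of_lt_pi h0 hθπ
  set f : ℝ → ℝ := fun t => 6 / 5 * (cos (2 * θ) - cos t) - sin θ * sin t with hf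
  have hder : ∀ t, HasDerivAt f (6 / 5 * sin t - sin θ * cos t) t := by
    intro t
    have := (((hasDerivAt_cos t).const_sub (cos (2 * θ))).const_mul (6 / 5 : ℝ)).sub
      ((hasDerivAt_sin t).const_mul (sin θ))
    refine this.congr_deriv ?_
    ring
  have hmono : MonotoneOn f (Set.Icc (3 * θ) π) := by
    apply monotoneOn_of_deriv_nonneg (convex_Icc _ _)
    · exact fun t _ => (hder t).continuousAt.continuousWithinAt
    · exact fun t _ => (hder t).differentiableAt.differentiableWithinAt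
    · intro t ht
      rw [interior_Icc] at ht
      rw [(hder t).deriv]
      have hst : 0 < sin t := sin_pos_of_pos_of_lt_pi (by linarith [ht.1]) ht.2
      rcases le_or_gt (cos t) 0 with hc | hc
      · nlinarith [mul_nonneg hsθ.le (neg_nonneg.mpr hc)]
      · have htlt : t < π / 2 := by
          by_contra hcon
          push Not at hcon
          have := cos_nonpos_of_pi_div_two_le_of_le hcon (by linarith [ht.2])
          linarith
        have h1 : sin θ ≤ sin t := by
          apply sin_le_sin_of_le_of_le_pi_div_two (by linarith) htlt.le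
          linarith [ht.1]
        have h2 : cos t ≤ 1 := cos_le_one t
        nlinarith
  have hmem1 : 3 * θ ∈ Set.Icc (3 * θ) π := ⟨le_rfl, h3.trans hπ⟩
  have hmem2 : t ∈ Set.Icc (3 * θ) π := ⟨h3, hπ⟩
  have h1 := hmono hmem1 hmem2 h3
  have h2 : 0 ≤ f (3 * θ) := by
    rw [hf]
    simp only
    rw [cos_two_sub_cos_three rfl, sin_three_mul]
    have h4 : sin θ * (3 * sin θ - 4 * sin θ ^ 3) = (1 - cos θ ^ 2) * (4 * cos θ ^ 2 - 1) := by
      have : sin θ * (3 * sin θ - 4 * sin θ ^ 3) = sin θ ^ 2 * (3 - 4 * sin θ ^ 2) := by ring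
      rw [this, sin_sq]
      ring
    rw [h4]
    have hc1 := cos_le_one θ
    have : 6 / 5 * ((1 - cos θ) * (4 * cos θ ^ 2 + 2 * cos θ - 1)) -
        (1 - cos θ ^ 2) * (4 * cos θ ^ 2 - 1) =
        (1 - cos θ) ^ 2 * (4 * cos θ ^ 2 + 16 / 5 * cos θ - 1 / 5) := by ring
    rw [this]
    have : 0 ≤ 4 * cos θ ^ 2 + 16 / 5 * cos θ - 1 / 5 := by nlinarith
    positivity
  have h3 : 0 ≤ f t := h2.trans h1
  rw [hf] at h3
  simp only at h3
  linarith

/-- The key inequality on `[3θ, π)`. -/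
lemma key_ineq {M : ℕ} (hM : 5 ≤ M) {t : ℝ} (h3 : 3 * (π / M) ≤ t) (hπ : t < π) :
    (1 - cos (2 * (π / M))) / M * (1 / sin t + 2 * sin t / (cos (2 * (π / M)) - cos t)) *
      sin (M * t) ≤
    (cos (2 * (π / M)) - cos t) + (1 - cos (2 * (π / M))) * (1 + cos (M * t)) := by
  have hMR : (5 : ℝ) ≤ M := by exact_mod_cast hM
  have hMpos : (0 : ℝ) < M := by linarith
  set θ : ℝ := π / M with hθ
  have hθ0 : 0 < θ := by positivity
  have hx := cos_ge hMR
  rw [← hθ] at hx
  have hx1 := cos_le_one θ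
  have hθπ : θ < π := by linarith
  have hsθ : 0 < sin θ := sin_pos_of_pos_of_lt_pi hθ0 hθπ
  have hst : 0 < sin t := sin_pos_of_pos_of_lt_pi (by linarith) hπ
  have he : 1 - cos (2 * θ) = 2 * sin θ ^ 2 := by
    rw [cos_two_mul, sin_sq]; ring
  have hepos : 0 < 1 - cos (2 * θ) := by rw [he]; positivity
  have hlow := one_sub_cos_lower hMR
  rw [← hθ] at hlow
  -- delta
  have hδmono : cos t ≤ cos (3 * θ) := by
    apply cos_le_cos_of_nonneg_of_le_pi (by positivity) hπ.le h3
  have hδ3 : (1 - cos θ) * (4 * cos θ ^ 2 + 2 * cos θ - 1) ≤ cos (2 * θ) - cos t := by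
    rw [← cos_two_sub_cos_three rfl]
    linarith
  have hquad : 79 / 25 ≤ 4 * cos θ ^ 2 + 2 * cos θ - 1 := by nlinarith
  have hδlow : 14 / (M : ℝ) ^ 2 ≤ cos (2 * θ) - cos t := by
    have h1 : 14 / (M : ℝ) ^ 2 ≤ (9 / 2 / (M : ℝ) ^ 2) * (79 / 25) := by
      rw [div_mul_eq_mul_div]
      apply div_le_div_of_nonneg_right _ (by positivity)
      norm_num
    have h2 : (9 / 2 / (M : ℝ) ^ 2) * (79 / 25) ≤
        (1 - cos θ) * (4 * cos θ ^ 2 + 2 * cos θ - 1) := by
      apply mul_le_mul hlow hquad (by norm_num)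
      linarith
    linarith
  have hδpos : 0 < cos (2 * θ) - cos t := lt_of_lt_of_le (by positivity) hδlow
  set δ : ℝ := cos (2 * θ) - cos t with hδ
  have hB0 : 0 < 1 / sin t + 2 * sin t / δ := by positivity
  rcases le_or_gt t (π - θ) with hcase | hcase
  · -- Case A
    apply quad_ineq hepos _ (cos_sq_add_sin_sq _)
    have hs1 : sin θ ≤ sin t := by
      rcases le_or_gt t (π / 2) with h | h
      · apply sin_le_sin_of_le_of_le_pi_div_two (by linarith) h
        linarith
      · rw [← sin_pi_sub t]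
        apply sin_le_sin_of_le_of_le_pi_div_two (by linarith) (by linarith)
        linarith
    have hs2 : sin θ / sin t ≤ 1 := by
      rw [div_le_one hst]; exact hs1
    have hs3 : sin θ * sin t / δ ≤ 6 / 5 := by
      rw [div_le_iff₀ hδpos]
      exact sin_mul_sin_le hθ0 hx h3 hπ.le
    have hs4 : sin θ * (1 / sin t + 2 * sin t / δ) ≤ 17 / 5 := by
      have : sin θ * (1 / sin t + 2 * sin t / δ) = sin θ / sin t + 2 * (sin θ * sin t / δ) := by
        ring
      rw [this]
      linarith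
    have hs5 : 0 ≤ sin θ * (1 / sin t + 2 * sin t / δ) := by positivity
    have h6 : ((1 - cos (2 * θ)) / M * (1 / sin t + 2 * sin t / δ)) ^ 2 =
        2 * (1 - cos (2 * θ)) * ((sin θ * (1 / sin t + 2 * sin t / δ)) ^ 2 / M ^ 2) := by
      rw [he]
      ring
    rw [h6]
    apply mul_le_mul_of_nonneg_left _ (by positivity)
    have h7 : (sin θ * (1 / sin t + 2 * sin t / δ)) ^ 2 ≤ (17 / 5) ^ 2 :=
      pow_le_pow_left₀ hs5 hs4 2
    calc (sin θ * (1 / sin t + 2 * sin t / δ)) ^ 2 / (M : ℝ) ^ 2 ≤ (17 / 5) ^ 2 / (M : ℝ) ^ 2 := by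
          gcongr
      _ ≤ 14 / (M : ℝ) ^ 2 := by
          apply div_le_div_of_nonneg_right _ (by positivity)
          norm_num
      _ ≤ δ := hδlow
  · -- Case B
    have hsin_le : |sin (M * t)| ≤ M * sin t := by
      have := abs_sin_nat_mul_le M t
      rwa [abs_of_pos hst] at this
    have hsin_le1 : |sin (M * t)| ≤ 1 := abs_sin_le_one _
    have hss : sin t ≤ sin θ := by
      rw [← sin_pi_sub t]
      apply sin_le_sin_of_le_of_le_pi_div_two (by linarith) _ (by linarith)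
      have := pi_gt_three
      have h8 : θ ≤ π / 5 := div_le_div_of_nonneg_left pi_pos.le (by norm_num) hMR
      linarith
    have hsθ2 : sin θ ≤ 3 / 5 := by
      have h9 : sin θ ^ 2 ≤ (3 / 5) ^ 2 := by
        rw [sin_sq]
        nlinarith
      exact le_of_sq_le_sq h9 (by norm_num)
    have hδ2 : 27 / 25 ≤ δ := by
      have h10 : cos t ≤ - cos θ := by
        rw [← cos_pi_sub]
        apply cos_le_cos_of_nonneg_of_le_pi (by linarith) hπ.le
        linarith
      have h11 : cos (2 * θ) = 2 * cos θ ^ 2 - 1 := cos_two_mul θ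
      rw [hδ, h11]
      nlinarith
    have he2 : 1 - cos (2 * θ) ≤ 18 / 25 := by
      rw [cos_two_mul]
      nlinarith
    have hA : (1 - cos (2 * θ)) / M * (1 / sin t + 2 * sin t / δ) * sin (M * t) ≤
        (1 - cos (2 * θ)) * (1 + 2 * (3 / 5) / (5 * δ)) := by
      have h12 : sin (M * t) / sin t ≤ M := by
        rw [div_le_iff₀ hst]
        exact (le_abs_self _).trans hsin_le
      have h13 : sin t * sin (M * t) ≤ 3 / 5 := by
        calc sin t * sin (M * t) ≤ sin t * 1 := by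
              apply mul_le_mul_of_nonneg_left (sin_le_one _) hst.le
          _ ≤ 3 / 5 := by linarith
      have h14 : (1 - cos (2 * θ)) / M * (1 / sin t + 2 * sin t / δ) * sin (M * t) =
          (1 - cos (2 * θ)) * ((sin (M * t) / sin t) / M + 2 * (sin t * sin (M * t)) / (M * δ)) := by
        field_simp
      rw [h14]
      apply mul_le_mul_of_nonneg_left _ hepos.le
      apply add_le_add
      · rw [div_le_one hMpos]; exact h12
      · calc 2 * (sin t * sin (M * t)) / (M * δ) ≤ 2 * (3 / 5) / (M * δ) := by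
              gcongr
          _ ≤ 2 * (3 / 5) / (5 * δ) := by
              gcongr
    have hB : (1 - cos (2 * θ)) * (1 + 2 * (3 / 5) / (5 * δ)) ≤ δ := by
      have h15 : 2 * (3 / 5) / (5 * δ) ≤ 2 / 9 := by
        rw [div_le_iff₀ (by positivity)]
        nlinarith
      calc (1 - cos (2 * θ)) * (1 + 2 * (3 / 5) / (5 * δ)) ≤ (18 / 25) * (1 + 2 / 9) := by
            apply mul_le_mul he2 (by linarith) (by positivity) (by norm_num)
        _ ≤ 27 / 25 := by norm_num
        _ ≤ δ := hδ2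
    have hC : 0 ≤ (1 - cos (2 * θ)) * (1 + cos (M * t)) := by
      apply mul_nonneg hepos.le
      linarith [neg_one_le_cos (M * t)]
    linarith


/-- the inequality behind `V''(c) > 0` -/
lemma second_ineq {M : ℝ} (hM : 5 ≤ M) :
    9 * cos (2 * (π / M)) + 6 * cos (2 * (π / M)) ^ 2 <
      (M ^ 2 - 4) * (1 - cos (2 * (π / M)) ^ 2) := by
  have hMpos : 0 < M := by linarith
  set c := cos (2 * (π / M)) with hc
  set u : ℝ := 1 / M ^ 2 with hu
  have hu0 : 0 < u := by positivity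
  have hu1 : u ≤ 1 / 25 := by
    rw [hu]
    apply one_div_le_one_div_of_le (by norm_num)
    nlinarith
  have hMu : M ^ 2 * u = 1 := by rw [hu]; field_simp
  have hle : 2 * (π / M) ≤ π / 2 := by
    rw [mul_div_assoc', div_le_div_iff₀ hMpos (by norm_num)]
    nlinarith [pi_pos]
  have h1 : c ≤ 1 - 8 * u := by
    have := cos_le_one_sub_mul_cos_sq (x := 2 * (π / M)) (by
      rw [abs_of_nonneg (by positivity)]
      linarith [pi_pos])
    have h2 : 2 / π ^ 2 * (2 * (π / M)) ^ 2 = 8 * u := by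
      rw [hu]
      have := pi_ne_zero
      field_simp
      ring
    linarith
  have h3 : 0 ≤ c := cos_nonneg_of_mem_Icc ⟨by linarith [pi_pos, div_pos pi_pos hMpos], hle⟩
  have h4 : 4 / M ≤ sin (2 * (π / M)) := by
    have := mul_le_sin (x := 2 * (π / M)) (by positivity) hle
    have h5 : 2 / π * (2 * (π / M)) = 4 / M := by
      have := pi_ne_zero
      field_simp
      ring
    linarith
  have h5 : 16 * u ≤ 1 - c ^ 2 := by
    have h6 : (4 / M) ^ 2 ≤ sin (2 * (π / M)) ^ 2 := pow_le_pow_left₀ (by positivity) h4 2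
    rw [sin_sq] at h6
    have : (4 / M) ^ 2 = 16 * u := by rw [hu]; ring
    linarith
  have h7 : (M ^ 2 - 4) * (16 * u) ≤ (M ^ 2 - 4) * (1 - c ^ 2) := by
    apply mul_le_mul_of_nonneg_left h5
    nlinarith
  have h8 : (M ^ 2 - 4) * (16 * u) = 16 - 64 * u := by nlinarith
  have h9 : 9 * c + 6 * c ^ 2 ≤ 9 * (1 - 8 * u) + 6 * (1 - 8 * u) ^ 2 := by
    have : c ^ 2 ≤ (1 - 8 * u) ^ 2 := pow_le_pow_left₀ h3 h1 2
    linarith
  nlinarith

end Pool.Agent.Helper766
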