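import Mathlib
import Pool.Agent.Helper766.GoodPoly
import Pool.Agent.Helper766.SignStructure
import Pool.Agent.Helper766.TrigIneq

set_option autoImplicit false

open Real Polynomial Polynomial.Chebyshev

namespace Pool.Agent.Helper766

/-- zeros of `U_n` -/
noncomputable def xk (n k : ℕ) : ℝ := cos ((k + 1) * π / (n + 1))

lemma U_eq_prod (n : ℕ) :
    U ℝ n = C ((2 : ℝ) ^ n) * ∏ k ∈ Finset.range n, (X - C (xk n k)) := by
  have hroots := roots_U_real n
  have hinj : Set.InjOn (fun k : ℕ => cos ((k + 1) * π / (n + 1))) (Finset.range n) :=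
    (Finset.range n).nodup_map_iff_injOn.mp (roots_U_real_nodup n)
  have hcard : Multiset.card (U ℝ n).roots = (U ℝ n).natDegree := by
    rw [hroots, natDegree_U_natCast]
    have : Multiset.card ((Finset.range n).image (fun (k : ℕ) => cos ((k + 1) * π / (n + 1)))).val
        = ((Finset.range n).image (fun (k : ℕ) => cos ((k + 1) * π / (n + 1)))).card := rfl
    rw [this, Finset.card_image_of_injOn hinj, Finset.card_range]
  have h := C_leadingCoeff_mul_prod_multiset_X_sub_C hcard
  rw [← h, hroots, leadingCoeff_U_natCast]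
  congr 1
  have : (Multiset.map (fun a => X - C a)
      ((Finset.range n).image (fun (k : ℕ) => cos ((k + 1) * π / (n + 1)))).val).prod
      = ∏ a ∈ (Finset.range n).image (fun (k : ℕ) => cos ((k + 1) * π / (n + 1))), (X - C a) := rfl
  rw [this, Finset.prod_image hinj]
  rfl


/-- the remaining factors -/
noncomputable def p0 (n : ℕ) : ℝ[X] :=
  C ((1 - xk n 1) / (n + 1) * 2 ^ n) * ∏ k ∈ Finset.Ico 3 n, (X - C (xk n k))

/-- the real-rooted polynomial `V` -/
noncomputable def Vp (n : ℕ) : ℝ[X] :=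
  (X - C (xk n 0)) * ((X - C (-1)) * ((X - C (xk n 2)) * p0 n))

lemma xk_lt {n i j : ℕ} (hij : i < j) (hj : j < n + 1) : xk n j < xk n i := by
  unfold xk
  have hn : (0 : ℝ) < n + 1 := by positivity
  have hi : (i : ℝ) < j := by exact_mod_cast hij
  have hj' : (j : ℝ) < n + 1 := by exact_mod_cast hj
  apply cos_lt_cos_of_nonneg_of_le_pi
  · positivity
  · rw [div_le_iff₀ hn]
    have : (j : ℝ) + 1 ≤ n + 1 := by exact_mod_cast hj
    nlinarith [pi_pos]
  · apply div_lt_div_of_pos_right _ hn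
    nlinarith [pi_pos]

lemma neg_one_lt_xk {n k : ℕ} (hk : k < n) : -1 < xk n k := by
  unfold xk
  rw [← cos_pi]
  have hn : (0 : ℝ) < n + 1 := by positivity
  have hk' : (k : ℝ) < n := by exact_mod_cast hk
  apply cos_lt_cos_of_nonneg_of_le_pi
  · positivity
  · exact le_rfl
  · rw [div_lt_iff₀ hn]
    nlinarith [pi_pos]

lemma xk_lt_one {n k : ℕ} (hk : k < n) : xk n k < 1 := by
  unfold xk
  have hn : (0 : ℝ) < n + 1 := by positivity
  have hk' : (k : ℝ) < n := by exact_mod_cast hk
  have h : cos ((k + 1) * π / (n + 1)) < cos 0 := by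
    apply cos_lt_cos_of_nonneg_of_le_pi
    · exact le_rfl
    · rw [div_le_iff₀ hn]
      nlinarith [pi_pos]
    · positivity
  rwa [cos_zero] at h

lemma prod_split {n : ℕ} (hn : 4 ≤ n) : ∏ k ∈ Finset.range n, (X - C (xk n k)) =
    (X - C (xk n 0)) * ((X - C (xk n 1)) * ((X - C (xk n 2)) *
      ∏ k ∈ Finset.Ico 3 n, (X - C (xk n k)))) := by
  rw [Finset.range_eq_Ico, Finset.prod_eq_prod_Ico_succ_bot (by omega),
    Finset.prod_eq_prod_Ico_succ_bot (by omega), Finset.prod_eq_prod_Ico_succ_bot (by omega)]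

lemma V_mul {n : ℕ} (hn : 4 ≤ n) : (X - C (xk n 1)) * Vp n =
    C ((1 - xk n 1) / (n + 1)) * ((X + 1) * U ℝ n) := by
  rw [U_eq_prod, prod_split hn]
  unfold Vp p0
  rw [Polynomial.C_mul]
  have : (X - C (-1 : ℝ)) = X + 1 := by simp
  rw [this]
  ring

section
variable {n : ℕ} (hn : 4 ≤ n)
include hn

lemma c_pos' : xk n 1 < 1 := xk_lt_one (by omega)

lemma V_second_pos {s x : ℝ} (hs : xk n 2 < s) (hsx : s ≤ x)
    (h : 0 < (derivative (derivative (Vp n))).eval s) :
    0 < (derivative (derivative (Vp n))).eval x := by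
  apply second_deriv_pos_of_pos (m := xk n 2) (neg_one_lt_xk (by omega)).le le_rfl _ hs hsx h
  intro t ht
  apply Good.prod
  · apply mul_pos
    · apply div_pos
      · have := c_pos' hn; linarith
      · positivity
    · positivity
  · intro i hi
    rw [Finset.mem_Ico] at hi
    have : xk n i < xk n 2 := xk_lt (by omega) (by omega)
    linarith

lemma V_d1 (x : ℝ) : (Vp n).eval x + (x - xk n 1) * (derivative (Vp n)).eval x =
    (1 - xk n 1) / (n + 1) * ((U ℝ n).eval x + (x + 1) * (derivative (U ℝ n)).eval x) := by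
  have h := congrArg (fun p => (derivative p).eval x) (V_mul hn)
  simp at h
  linear_combination h

lemma V_d3 (x : ℝ) : 3 * (derivative (derivative (Vp n))).eval x +
      (x - xk n 1) * (derivative (derivative (derivative (Vp n)))).eval x =
    (1 - xk n 1) / (n + 1) * (3 * (derivative (derivative (U ℝ n))).eval x +
      (x + 1) * (derivative (derivative (derivative (U ℝ n)))).eval x) := by
  have h := congrArg (fun p => (derivative (derivative (derivative p))).eval x) (V_mul hn)
  simp at h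
  linear_combination h

lemma U_root : (U ℝ n).eval (xk n 1) = 0 := by
  rw [U_eq_prod, prod_split hn]
  simp

omit hn in
lemma xk1_eq : xk n 1 = cos (2 * (π / ((n : ℝ) + 1))) := by
  unfold xk
  congr 1
  push_cast
  ring

omit hn in
lemma xk2_eq : xk n 2 = cos (3 * (π / ((n : ℝ) + 1))) := by
  unfold xk
  congr 1
  push_cast
  ring

lemma T_at : (T ℝ (n + 1)).eval (xk n 1) = 1 := by
  rw [xk1_eq, T_real_cos]
  have : (((n : ℤ) + 1 : ℤ) : ℝ) * (2 * (π / ((n : ℝ) + 1))) = 2 * π := by
    push_cast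
    have : (n : ℝ) + 1 ≠ 0 := by positivity
    field_simp
  rw [this, cos_two_pi]

omit hn in
lemma U_d1 (x : ℝ) : (1 - x ^ 2) * (derivative (U ℝ n)).eval x =
    x * (U ℝ n).eval x - (n + 1) * (T ℝ (n + 1)).eval x := by
  have h := congrArg (fun p => p.eval x) (add_one_mul_T_eq_poly_in_U (R := ℝ) (n : ℤ))
  simp at h
  linear_combination h

omit hn in
lemma U_d2 (x : ℝ) : (1 - x ^ 2) * (derivative (derivative (U ℝ n))).eval x =
    3 * x * (derivative (U ℝ n)).eval x - (((n : ℝ) + 1) ^ 2 - 1) * (U ℝ n).eval x := by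
  have h := one_sub_X_sq_mul_iterate_derivative_U_eval (R := ℝ) (n : ℤ) 0 x
  simp at h
  linear_combination h

omit hn in
lemma U_d3 (x : ℝ) : (1 - x ^ 2) * (derivative (derivative (derivative (U ℝ n)))).eval x =
    5 * x * (derivative (derivative (U ℝ n))).eval x -
      (((n : ℝ) + 1) ^ 2 - 4) * (derivative (U ℝ n)).eval x := by
  have h := one_sub_X_sq_mul_iterate_derivative_U_eval (R := ℝ) (n : ℤ) 1 x
  simp at h
  linear_combination h

lemma V_at_c : (Vp n).eval (xk n 1) = -1 := by
  have h1 := V_d1 hn (xk n 1)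
  have h2 := U_d1 (n := n) (xk n 1)
  rw [T_at hn, U_root hn] at h2
  rw [U_root hn, sub_self, zero_mul, add_zero, zero_add] at h1
  rw [h1]
  have hn1 : (n : ℝ) + 1 ≠ 0 := by positivity
  rw [div_mul_eq_mul_div, div_eq_iff hn1]
  linear_combination h2

lemma V_second_at_c : 0 < (derivative (derivative (Vp n))).eval (xk n 1) := by
  have h3 := V_d3 hn (xk n 1)
  have u1 := U_d1 (n := n) (xk n 1)
  have u2 := U_d2 (n := n) (xk n 1)
  have u3 := U_d3 (n := n) (xk n 1)
  rw [T_at hn, U_root hn] at u1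
  rw [U_root hn] at u2
  rw [sub_self, zero_mul, add_zero] at h3
  have hc1 : xk n 1 < 1 := xk_lt_one (by omega)
  have hc2 : -1 < xk n 1 := neg_one_lt_xk (by omega)
  have hineq := second_ineq (M := (n : ℝ) + 1) (by
    have : (4 : ℝ) ≤ n := by exact_mod_cast hn
    linarith)
  rw [← xk1_eq] at hineq
  set c := xk n 1 with hc
  set a1 := (derivative (U ℝ n)).eval c
  set a2 := (derivative (derivative (U ℝ n))).eval c
  set a3 := (derivative (derivative (derivative (U ℝ n)))).eval c
  have hn1 : 0 < (n : ℝ) + 1 := by positivity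
  have hs : 0 < 1 - c ^ 2 := by nlinarith
  have hkey : (1 - c ^ 2) ^ 3 * (3 * a2 + (c + 1) * a3) =
      ((n : ℝ) + 1) * (1 + c) * (((((n : ℝ) + 1) ^ 2 - 4) * (1 - c ^ 2) - (9 * c + 6 * c ^ 2)) ) *
        1 := by
    have e1 : (1 - c ^ 2) ^ 2 * a2 = 3 * c * ((1 - c ^ 2) * a1) := by
      linear_combination (1 - c ^ 2) * u2
    have e2 : (1 - c ^ 2) * a1 = -((n : ℝ) + 1) := by linear_combination u1
    have e3 : (1 - c ^ 2) ^ 3 * a3 = 5 * c * ((1 - c ^ 2) ^ 2 * a2) -
        (((n : ℝ) + 1) ^ 2 - 4) * (1 - c ^ 2) * ((1 - c ^ 2) * a1) := by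
      linear_combination (1 - c ^ 2) ^ 2 * u3
    rw [e1, e2] at e3
    rw [e2] at e1
    have : (1 - c ^ 2) ^ 3 * (3 * a2 + (c + 1) * a3) =
      3 * (1 - c ^ 2) * ((1 - c ^ 2) ^ 2 * a2) + (c + 1) * ((1 - c ^ 2) ^ 3 * a3) := by ring
    rw [this, e1, e3]
    ring
  have hpos : 0 < 3 * a2 + (c + 1) * a3 := by
    have h4 : 0 < (1 - c ^ 2) ^ 3 * (3 * a2 + (c + 1) * a3) := by
      rw [hkey, mul_one]
      apply mul_pos
      · apply mul_pos hn1
        linarith
      · linarith
    exact (pos_iff_pos_of_mul_pos h4).mp (by positivity)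
  have h5 : 0 < (1 - c) / ((n : ℝ) + 1) * (3 * a2 + (c + 1) * a3) := by
    apply mul_pos _ hpos
    apply div_pos _ hn1
    linarith
  rw [← h3] at h5
  linarith

/-- the polynomial `Ψ` is nonpositive on `[-1, cos 3θ]`. -/
lemma Psi_left {x : ℝ} (hx1 : -1 ≤ x) (hx2 : x ≤ xk n 2) :
    ((X - C (xk n 1)) * derivative (Vp n) - (1 + Vp n)).eval x ≤ 0 := by
  have hc1 : xk n 1 < 1 := xk_lt_one (by omega)
  have hc2 : -1 < xk n 1 := neg_one_lt_xk (by omega)
  have h21 : xk n 2 < xk n 1 := xk_lt (by omega) (by omega)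
  have hd1 := V_d1 hn x
  have hn1 : 0 < (n : ℝ) + 1 := by positivity
  have hn5 : 5 ≤ (n : ℝ) + 1 := by
    have : (4 : ℝ) ≤ n := by exact_mod_cast hn
    linarith
  have hVm : (x - xk n 1) * (Vp n).eval x =
      (1 - xk n 1) / (n + 1) * ((x + 1) * (U ℝ n).eval x) := by
    have h := congrArg (fun p => p.eval x) (V_mul hn)
    simpa using h
  have heval : ((X - C (xk n 1)) * derivative (Vp n) - (1 + Vp n)).eval x =
      (x - xk n 1) * (derivative (Vp n)).eval x - (1 + (Vp n).eval x) := by simp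
  rw [heval]
  rcases hx1.eq_or_lt with h | h
  · -- x = -1
    subst h
    have hV0 : (Vp n).eval (-1) = 0 := by
      unfold Vp; simp
    rw [hV0] at hd1 ⊢
    have hU : (U ℝ n).eval (-1) ≤ (n : ℝ) + 1 := by
      rw [U_eval_neg_one]
      rcases Int.even_or_odd (n : ℤ) with he | ho
      · rw [Int.negOnePow_even _ he]; simp
      · rw [Int.negOnePow_odd _ ho]; simp; linarith
    have h6 : (1 - xk n 1) / (n + 1) * (U ℝ n).eval (-1) ≤ (1 - xk n 1) := by
      rw [div_mul_eq_mul_div, div_le_iff₀ hn1]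
      apply mul_le_mul_of_nonneg_left hU
      linarith
    have hcpos : 0 < xk n 1 := by
      rw [xk1_eq]
      apply cos_pos_of_mem_Ioo
      constructor
      · have : 0 < π / ((n : ℝ) + 1) := by positivity
        linarith [pi_pos]
      · rw [mul_div_assoc', div_lt_div_iff₀ hn1 (by norm_num)]
        nlinarith [pi_pos]
    linarith
  · -- x > -1
    set t := arccos x with ht
    have hx1' : x ≤ 1 := by linarith
    have hcos : cos t = x := cos_arccos hx1 hx1'
    have htπ : t < π := by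
      rw [ht]
      exact lt_of_le_of_ne (arccos_le_pi x) (fun h' => by
        rw [arccos_eq_pi] at h'
        linarith)
    have ht0 : 0 ≤ t := arccos_nonneg x
    have ht3 : 3 * (π / ((n : ℝ) + 1)) ≤ t := by
      by_contra hcon
      push Not at hcon
      have h7 : cos (3 * (π / ((n : ℝ) + 1))) < cos t := by
        apply cos_lt_cos_of_nonneg_of_le_pi ht0 _ hcon
        rw [mul_div_assoc', div_le_iff₀ hn1]
        nlinarith [pi_pos]
      rw [← xk2_eq, hcos] at h7
      linarith
    have hst : 0 < sin t := by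
      apply sin_pos_of_pos_of_lt_pi _ htπ
      have : 0 < π / ((n : ℝ) + 1) := by positivity
      linarith
    have hkey := key_ineq (M := n + 1) (by omega) (t := t) (by push_cast; exact ht3) htπ
    push_cast at hkey
    rw [← xk1_eq, hcos] at hkey
    have hUs : (U ℝ n).eval x * sin t = sin (((n : ℝ) + 1) * t) := by
      rw [← hcos]
      have := U_real_cos t (n : ℤ)
      simpa only [Int.cast_natCast] using this
    have hTs : (T ℝ (n + 1)).eval x = cos (((n : ℝ) + 1) * t) := by
      rw [← hcos]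
      have := T_real_cos t ((n : ℤ) + 1)
      simpa only [Int.cast_natCast, Int.cast_add, Int.cast_one] using this
    have hu1 := U_d1 (n := n) x
    have hs2 : sin t ^ 2 = 1 - x ^ 2 := by rw [← hcos, sin_sq]
    set c := xk n 1 with hc
    have hcx : 0 < c - x := by linarith
    have hV : (Vp n).eval x = -((1 - c) / (n + 1) * ((x + 1) * (U ℝ n).eval x)) / (c - x) := by
      rw [eq_div_iff hcx.ne']
      linear_combination -hVm
    have hx1pos : 0 < 1 - x := by linarith
    -- multiply by (1 - x)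
    have hmul : (1 - x) * ((x - c) * (derivative (Vp n)).eval x - (1 + (Vp n).eval x)) =
        (1 - c) / (n + 1) * (1 / sin t + 2 * sin t / (c - x)) * sin (((n : ℝ) + 1) * t) -
        ((c - x) + (1 - c) * (1 + cos (((n : ℝ) + 1) * t))) := by
      rw [← hUs, ← hTs]
      have e1 : (x - c) * (derivative (Vp n)).eval x = (1 - c) / (n + 1) *
          ((U ℝ n).eval x + (x + 1) * (derivative (U ℝ n)).eval x) - (Vp n).eval x := by
        linear_combination hd1
      rw [e1]
      have e2 : (1 - c) / ((n : ℝ) + 1) * (1 / sin t + 2 * sin t / (c - x)) *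
          ((U ℝ n).eval x * sin t) = (1 - c) / (n + 1) * ((U ℝ n).eval x * (1 + 2 * sin t ^ 2 / (c - x))) := by
        field_simp
      rw [e2, hs2]
      have e3 : (1 - x) * ((1 - c) / ((n : ℝ) + 1) * ((U ℝ n).eval x +
          (x + 1) * (derivative (U ℝ n)).eval x) - (Vp n).eval x - (1 + (Vp n).eval x)) =
          (1 - c) / ((n : ℝ) + 1) * ((1 - x) * (U ℝ n).eval x +
            (1 - x ^ 2) * (derivative (U ℝ n)).eval x) - 2 * (1 - x) * (Vp n).eval x - (1 - x) := by
        ring
      rw [e3, hu1, hV]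
      field_simp
      ring
    have hle : (1 - x) * ((x - c) * (derivative (Vp n)).eval x - (1 + (Vp n).eval x)) ≤ 0 := by
      rw [hmul]
      linarith
    by_contra hcon
    push Not at hcon
    have := mul_pos hx1pos hcon
    linarith

/-- **Sign pattern.** -/
theorem exists_c0 : ∃ c0, xk n 2 ≤ c0 ∧ c0 ≤ xk n 1 ∧ ∀ x, -1 ≤ x → x ≤ 1 →
      0 ≤ (x - c0) * ((X - C (xk n 1)) * derivative (Vp n) - (1 + Vp n)).eval x :=
  sign_structure (Vp n) (xk n 2) (xk n 1) (xk_lt (by omega) (by omega))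
    (fun _ _ hs hsx h => V_second_pos hn hs hsx h) (V_at_c hn) (V_second_at_c hn)
    (fun _ h1 h2 => Psi_left hn h1 h2)

end

end Pool.Agent.Helper766
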