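import Mathlib

set_option autoImplicit false

open Finset

namespace Pool.Agent.Helper766

lemma cos_rec (φ : ℝ) (x : ℝ) :
    Real.cos ((x + 1) * φ) = 2 * Real.cos φ * Real.cos (x * φ) - Real.cos ((x - 1) * φ) := by
  have h1 : (x + 1) * φ = x * φ + φ := by ring
  have h2 : (x - 1) * φ = x * φ - φ := by ring
  rw [h1, h2, Real.cos_add, Real.cos_sub]
  ring

lemma sin_rec (φ : ℝ) (x : ℝ) :
    Real.sin ((x + 1) * φ) = 2 * Real.cos φ * Real.sin (x * φ) - Real.sin ((x - 1) * φ) := by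
  have h1 : (x + 1) * φ = x * φ + φ := by ring
  have h2 : (x - 1) * φ = x * φ - φ := by ring
  rw [h1, h2, Real.sin_add, Real.sin_sub]
  ring

lemma sum_cos (φ : ℝ) (z : ℂ) (n : ℕ) :
    (∑ j ∈ range n, (Real.cos (j * φ) : ℂ) * z ^ j) * (1 - 2 * Real.cos φ * z + z ^ 2) =
      1 - Real.cos φ * z - z ^ n * (Real.cos (n * φ) - z * Real.cos (((n : ℝ) - 1) * φ)) := by
  induction n with
  | zero => simp; ring
  | succ n ih =>
    rw [sum_range_succ, add_mul, ih]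
    have h := cos_rec φ (n : ℝ)
    have h' : (Real.cos (((n : ℝ) + 1) * φ) : ℂ) = 2 * Real.cos φ * Real.cos (n * φ) -
        Real.cos (((n : ℝ) - 1) * φ) := by rw [h]; push_cast; ring
    have e1 : (((n + 1 : ℕ) : ℝ)) = (n : ℝ) + 1 := by push_cast; ring
    have e2 : (((n + 1 : ℕ) : ℝ) - 1) = (n : ℝ) := by push_cast; ring
    rw [e2, e1, h']
    ring

lemma sum_sin (φ : ℝ) (z : ℂ) (n : ℕ) :
    (∑ j ∈ range n, (Real.sin (j * φ) : ℂ) * z ^ j) * (1 - 2 * Real.cos φ * z + z ^ 2) =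
      Real.sin φ * z - z ^ n * (Real.sin (n * φ) - z * Real.sin (((n : ℝ) - 1) * φ)) := by
  induction n with
  | zero => simp; ring
  | succ n ih =>
    rw [sum_range_succ, add_mul, ih]
    have h := sin_rec φ (n : ℝ)
    have h' : (Real.sin (((n : ℝ) + 1) * φ) : ℂ) = 2 * Real.cos φ * Real.sin (n * φ) -
        Real.sin (((n : ℝ) - 1) * φ) := by rw [h]; push_cast; ring
    have e1 : (((n + 1 : ℕ) : ℝ)) = (n : ℝ) + 1 := by push_cast; ring
    have e2 : (((n + 1 : ℕ) : ℝ) - 1) = (n : ℝ) := by push_cast; ring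
    rw [e2, e1, h']
    ring

lemma sum_mul_sin (φ : ℝ) (z : ℂ) (n : ℕ) :
    (∑ j ∈ range n, (j : ℂ) * (Real.sin (j * φ) : ℂ) * z ^ j) *
      (1 - 2 * Real.cos φ * z + z ^ 2) ^ 2 =
      (1 - 2 * Real.cos φ * z + z ^ 2) * (Real.sin φ * z - n * z ^ n * Real.sin (n * φ) +
        (n + 1) * z ^ (n + 1) * Real.sin (((n : ℝ) - 1) * φ)) -
      (Real.sin φ * z - z ^ n * (Real.sin (n * φ) - z * Real.sin (((n : ℝ) - 1) * φ))) *
        (2 * z ^ 2 - 2 * Real.cos φ * z) := by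
  induction n with
  | zero => simp; ring
  | succ n ih =>
    rw [sum_range_succ, add_mul, ih]
    have h := sin_rec φ (n : ℝ)
    have h' : (Real.sin (((n : ℝ) + 1) * φ) : ℂ) = 2 * Real.cos φ * Real.sin (n * φ) -
        Real.sin (((n : ℝ) - 1) * φ) := by rw [h]; push_cast; ring
    have e1 : (((n + 1 : ℕ) : ℝ)) = (n : ℝ) + 1 := by push_cast; ring
    have e2 : (((n + 1 : ℕ) : ℝ) - 1) = (n : ℝ) := by push_cast; ring
    rw [e2, e1, h']
    push_cast
    ring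

lemma sum_one (z : ℂ) (n : ℕ) : (∑ j ∈ range n, z ^ j) * (1 - z) = 1 - z ^ n := by
  induction n with
  | zero => simp
  | succ n ih => rw [sum_range_succ, add_mul, ih]; ring

/-- modified coefficients (`M` times the coefficients of `F_N`) -/
noncomputable def bc (M : ℕ) (j : ℕ) : ℝ :=
  (1 - Real.cos (j * (2 * Real.pi / M))) / (1 - Real.cos (2 * Real.pi / M)) +
    (M - j) * Real.sin (j * (2 * Real.pi / M)) / Real.sin (2 * Real.pi / M)

/-- the closed form -/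
lemma closed_form {M : ℕ} (hM : 3 ≤ M) (z : ℂ) :
    (1 - z) * (1 - 2 * Real.cos (2 * Real.pi / M) * z + z ^ 2) ^ 2 *
      (∑ j ∈ range M, (bc M j : ℂ) * z ^ j) =
    M * z * (1 - z) * (1 - 2 * Real.cos (2 * Real.pi / M) * z + z ^ 2) +
      2 * (1 - Real.cos (2 * Real.pi / M)) * z ^ 2 * (1 + z) * (1 - z ^ M) := by
  have hMR : (3 : ℝ) ≤ M := by exact_mod_cast hM
  have hMpos : (0 : ℝ) < M := by linarith
  set φ : ℝ := 2 * Real.pi / M with hφ
  have hφ0 : 0 < φ := by positivity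
  have hφπ : φ < Real.pi := by
    rw [hφ, div_lt_iff₀ hMpos]
    nlinarith [Real.pi_pos]
  have hs : Real.sin φ ≠ 0 := (Real.sin_pos_of_pos_of_lt_pi hφ0 hφπ).ne'
  have hc : 1 - Real.cos φ ≠ 0 := by
    have h : Real.cos φ < Real.cos 0 :=
      Real.cos_lt_cos_of_nonneg_of_le_pi le_rfl hφπ.le hφ0
    rw [Real.cos_zero] at h
    linarith
  have hsC : (Real.sin φ : ℂ) ≠ 0 := by exact_mod_cast hs
  have hcC : (1 - Real.cos φ : ℂ) ≠ 0 := by exact_mod_cast hc
  have hMφ : (M : ℝ) * φ = 2 * Real.pi := by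
    rw [hφ]; field_simp
  have hMφ1 : ((M : ℝ) - 1) * φ = 2 * Real.pi - φ := by
    rw [sub_mul, hMφ, one_mul]
  have hcosM : Real.cos (M * φ) = 1 := by rw [hMφ, Real.cos_two_pi]
  have hsinM : Real.sin (M * φ) = 0 := by rw [hMφ, Real.sin_two_pi]
  have hcosM1 : Real.cos (((M : ℝ) - 1) * φ) = Real.cos φ := by
    rw [hMφ1, Real.cos_two_pi_sub]
  have hsinM1 : Real.sin (((M : ℝ) - 1) * φ) = - Real.sin φ := by
    rw [hMφ1, Real.sin_two_pi_sub]
  have h1 := sum_one z M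
  have h2 := sum_cos φ z M
  have h3 := sum_sin φ z M
  have h4 := sum_mul_sin φ z M
  rw [hcosM, hcosM1] at h2
  rw [hsinM, hsinM1] at h3 h4
  have hsum : (∑ j ∈ range M, (bc M j : ℂ) * z ^ j) =
      ((∑ j ∈ range M, z ^ j) - (∑ j ∈ range M, (Real.cos (j * φ) : ℂ) * z ^ j)) /
        (1 - Real.cos φ) +
      (M * (∑ j ∈ range M, (Real.sin (j * φ) : ℂ) * z ^ j) -
        (∑ j ∈ range M, (j : ℂ) * (Real.sin (j * φ) : ℂ) * z ^ j)) / Real.sin φ := by
    rw [← sum_sub_distrib, mul_sum, ← sum_sub_distrib, sum_div, sum_div, ← sum_add_distrib]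
    apply sum_congr rfl
    intro j _
    unfold bc
    rw [← hφ]
    push_cast
    ring
  rw [hsum]
  set A := ∑ j ∈ range M, z ^ j
  set B := ∑ j ∈ range M, (Real.cos (j * φ) : ℂ) * z ^ j
  set S := ∑ j ∈ range M, (Real.sin (j * φ) : ℂ) * z ^ j
  set T := ∑ j ∈ range M, (j : ℂ) * (Real.sin (j * φ) : ℂ) * z ^ j
  set D := 1 - 2 * (Real.cos φ : ℂ) * z + z ^ 2 with hD
  have e1 : (1 - z) * D ^ 2 * ((A - B) / (1 - Real.cos φ)) =
      (1 - z ^ M) * D * (z * (1 + z)) := by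
    have : (1 - z) * D ^ 2 * ((A - B) / (1 - Real.cos φ)) =
      (D ^ 2 * (A * (1 - z)) - (1 - z) * D * (B * D)) / (1 - Real.cos φ) := by ring
    rw [this, h1, h2, div_eq_iff hcC]
    simp only [Complex.ofReal_one]
    rw [hD]
    ring
  have e2 : (1 - z) * D ^ 2 * ((M * S - T) / Real.sin φ) =
      (1 - z) * (M * z * D - z * (1 - z ^ M) * (1 - z ^ 2)) := by
    have : (1 - z) * D ^ 2 * ((M * S - T) / Real.sin φ) =
      (1 - z) * ((M * D * (S * D) - T * D ^ 2) / Real.sin φ) := by ring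
    rw [this, h3, h4]
    congr 1
    rw [div_eq_iff hsC]
    simp only [Complex.ofReal_zero, Complex.ofReal_neg]
    rw [hD]
    ring
  rw [mul_add, e1, e2, hD]
  ring

end Pool.Agent.Helper766
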