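import Mathlib

set_option autoImplicit false

open Complex

namespace Pool.Agent.Helper766

/-- Moebius image of the exponential of a point of the strip. -/
noncomputable def qmap (k : ℝ) (w : ℂ) : ℂ := exp w / (1 - k * exp w)

/-- Square root of `qmap`. -/
noncomputable def vmap (k : ℝ) (w : ℂ) : ℂ := exp (log (qmap k w) / 2)

/-- The conformal map from the strip `-π < im w < 0` onto the upper half disc. -/
noncomputable def zmap (k : ℝ) (w : ℂ) : ℂ := (1 - vmap k w) / (1 + vmap k w)

lemma exp_im_neg {w : ℂ} (h1 : -Real.pi < w.im) (h2 : w.im < 0) : (exp w).im < 0 := by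
  rw [exp_im]
  have : Real.sin w.im < 0 := Real.sin_neg_of_neg_of_neg_pi_lt h2 h1
  have := Real.exp_pos w.re
  nlinarith

lemma mobius_im {k : ℝ} {E : ℂ} (hE : E.im ≠ 0) (hk : k ≠ 0) : (1 - k * E) ≠ 0 := by
  intro h
  have := congrArg im h
  simp at this
  tauto

lemma mobius_im_formula (k : ℝ) (E : ℂ) :
    (E / (1 - k * E)).im = E.im / normSq (1 - k * E) := by
  rw [div_im]
  simp
  ring

lemma qmap_im_neg {k : ℝ} (hk : 0 < k) {w : ℂ} (h1 : -Real.pi < w.im) (h2 : w.im < 0) :
    (qmap k w).im < 0 := by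
  unfold qmap
  rw [mobius_im_formula]
  have hE := exp_im_neg h1 h2
  have hne : (1 - k * exp w) ≠ 0 := mobius_im hE.ne hk.ne'
  exact div_neg_of_neg_of_pos hE (normSq_pos.mpr hne)

lemma qmap_mem_slitPlane {k : ℝ} (hk : 0 < k) {w : ℂ} (h1 : -Real.pi < w.im) (h2 : w.im < 0) :
    qmap k w ∈ slitPlane := by
  rw [mem_slitPlane_iff]
  right
  exact (qmap_im_neg hk h1 h2).ne

lemma qmap_ne_zero {k : ℝ} (hk : 0 < k) {w : ℂ} (h1 : -Real.pi < w.im) (h2 : w.im < 0) :
    qmap k w ≠ 0 := slitPlane_ne_zero (qmap_mem_slitPlane hk h1 h2)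

lemma vmap_sq {k : ℝ} (hk : 0 < k) {w : ℂ} (h1 : -Real.pi < w.im) (h2 : w.im < 0) :
    vmap k w ^ 2 = qmap k w := by
  unfold vmap
  rw [← exp_nat_mul]
  have : ((2 : ℕ) : ℂ) * (log (qmap k w) / 2) = log (qmap k w) := by push_cast; ring
  rw [this, exp_log (qmap_ne_zero hk h1 h2)]

lemma vmap_arg {k : ℝ} (hk : 0 < k) {w : ℂ} (h1 : -Real.pi < w.im) (h2 : w.im < 0) :
    0 < (vmap k w).re ∧ (vmap k w).im < 0 := by
  unfold vmap
  have hq := qmap_im_neg hk h1 h2
  have harg : arg (qmap k w) < 0 := arg_neg_iff.mpr hq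
  have harg2 : -Real.pi < arg (qmap k w) := neg_pi_lt_arg _
  have him : (log (qmap k w) / 2).im = arg (qmap k w) / 2 := by
    simp [log_im]
  constructor
  · rw [exp_re, him]
    apply mul_pos (Real.exp_pos _)
    apply Real.cos_pos_of_mem_Ioo
    constructor <;> linarith
  · rw [exp_im, him]
    have : Real.sin (arg (qmap k w) / 2) < 0 :=
      Real.sin_neg_of_neg_of_neg_pi_lt (by linarith) (by linarith)
    have := Real.exp_pos (log (qmap k w) / 2).re
    nlinarith

lemma one_add_vmap_ne_zero {k : ℝ} (hk : 0 < k) {w : ℂ} (h1 : -Real.pi < w.im) (h2 : w.im < 0) :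
    1 + vmap k w ≠ 0 := by
  intro h
  have := congrArg re h
  simp at this
  have := (vmap_arg hk h1 h2).1
  linarith

lemma zmap_im_pos {k : ℝ} (hk : 0 < k) {w : ℂ} (h1 : -Real.pi < w.im) (h2 : w.im < 0) :
    0 < (zmap k w).im := by
  unfold zmap
  obtain ⟨hre, him⟩ := vmap_arg hk h1 h2
  have hne := one_add_vmap_ne_zero hk h1 h2
  have hN : 0 < normSq (1 + vmap k w) := normSq_pos.mpr hne
  rw [div_im]
  have : (1 - vmap k w).im * (1 + vmap k w).re / normSq (1 + vmap k w) -
      (1 - vmap k w).re * (1 + vmap k w).im / normSq (1 + vmap k w) =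
      (-2 * (vmap k w).im) / normSq (1 + vmap k w) := by
    simp
    ring
  rw [this]
  apply div_pos _ hN
  linarith

lemma zmap_norm_lt_one {k : ℝ} (hk : 0 < k) {w : ℂ} (h1 : -Real.pi < w.im) (h2 : w.im < 0) :
    ‖zmap k w‖ < 1 := by
  unfold zmap
  obtain ⟨hre, him⟩ := vmap_arg hk h1 h2
  have hne := one_add_vmap_ne_zero hk h1 h2
  rw [norm_div, div_lt_one (norm_pos_iff.mpr hne)]
  have h : ‖1 - vmap k w‖ ^ 2 < ‖1 + vmap k w‖ ^ 2 := by
    rw [← normSq_eq_norm_sq, ← normSq_eq_norm_sq, normSq_apply, normSq_apply]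
    simp
    nlinarith
  exact lt_of_pow_lt_pow_left₀ 2 (norm_nonneg _) h

lemma hasDerivAt_qmap {k : ℝ} (hk : 0 < k) {w : ℂ} (h1 : -Real.pi < w.im) (h2 : w.im < 0) :
    HasDerivAt (qmap k) (qmap k w * (1 + k * qmap k w)) w := by
  have hne : (1 - k * exp w) ≠ 0 := mobius_im (exp_im_neg h1 h2).ne hk.ne'
  have hE : HasDerivAt exp (exp w) w := hasDerivAt_exp w
  have hden : HasDerivAt (fun w : ℂ => 1 - (k : ℂ) * exp w) (-((k : ℂ) * exp w)) w := by
    simpa using ((hE.const_mul (k : ℂ)).const_sub 1)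
  have := hE.div hden hne
  refine this.congr_deriv ?_
  unfold qmap
  have h3 : 1 + (k : ℂ) * (exp w / (1 - k * exp w)) = 1 / (1 - k * exp w) := by
    rw [eq_div_iff hne, add_mul, mul_assoc, div_mul_cancel₀ _ hne]
    ring
  rw [h3, div_mul_div_comm, mul_one, ← sq]
  congr 1
  ring

lemma hasDerivAt_vmap {k : ℝ} (hk : 0 < k) {w : ℂ} (h1 : -Real.pi < w.im) (h2 : w.im < 0) :
    HasDerivAt (vmap k) (vmap k w * (1 + k * vmap k w ^ 2) / 2) w := by
  have hq := hasDerivAt_qmap hk h1 h2
  have hs := qmap_mem_slitPlane hk h1 h2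
  have hlog := hq.clog hs
  have := (hlog.div_const 2).cexp
  refine this.congr_deriv ?_
  rw [vmap_sq hk h1 h2]
  have hne := qmap_ne_zero hk h1 h2
  unfold vmap
  field_simp

lemma hasDerivAt_zmap {k : ℝ} (hk : 0 < k) {w : ℂ} (h1 : -Real.pi < w.im) (h2 : w.im < 0) :
    HasDerivAt (zmap k)
      (-(vmap k w * (1 + k * vmap k w ^ 2)) / (1 + vmap k w) ^ 2) w := by
  have hv := hasDerivAt_vmap hk h1 h2
  have hne := one_add_vmap_ne_zero hk h1 h2
  have := (hv.const_sub 1).div (hv.const_add 1) hne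
  refine this.congr_deriv ?_
  field_simp
  ring

/-- every point of the upper half disc is hit. -/
lemma exists_strip_preimage {k : ℝ} (hk : 0 < k) {z : ℂ} (hz : ‖z‖ < 1) (hz' : 0 < z.im) :
    ∃ w : ℂ, -Real.pi < w.im ∧ w.im < 0 ∧ zmap k w = z := by
  set v : ℂ := (1 - z) / (1 + z) with hv
  have h1z : 1 + z ≠ 0 := by
    intro h
    have := congrArg im h
    simp at this
    linarith
  have hN : 0 < normSq (1 + z) := normSq_pos.mpr h1z
  have hnz : z.re * z.re + z.im * z.im < 1 := by
    have : ‖z‖ ^ 2 < 1 := by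
      have := norm_nonneg z
      nlinarith
    rwa [← normSq_eq_norm_sq, normSq_apply] at this
  have hvre : 0 < v.re := by
    rw [hv, div_re]
    have : (1 - z).re * (1 + z).re / normSq (1 + z) + (1 - z).im * (1 + z).im / normSq (1 + z) =
        (1 - (z.re * z.re + z.im * z.im)) / normSq (1 + z) := by
      simp
      ring
    rw [this]
    exact div_pos (by linarith) hN
  have hvim : v.im < 0 := by
    rw [hv, div_im]
    have : (1 - z).im * (1 + z).re / normSq (1 + z) - (1 - z).re * (1 + z).im / normSq (1 + z) =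
        (-2 * z.im) / normSq (1 + z) := by
      simp
      ring
    rw [this]
    exact div_neg_of_neg_of_pos (by linarith) hN
  set q : ℂ := v ^ 2 with hq
  have hqim : q.im < 0 := by
    have : q.im = 2 * (v.re * v.im) := by
      rw [hq, sq, mul_im]; ring
    rw [this]
    nlinarith
  have hden : (1 + k * q) ≠ 0 := by
    intro h
    have := congrArg im h
    simp at this
    rcases this with h | h
    · exact hk.ne' h
    · exact hqim.ne h
  set E : ℂ := q / (1 + k * q) with hE
  have hEim : E.im < 0 := by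
    have h := mobius_im_formula (-k) q
    have e : (1 - ((-k : ℝ) : ℂ) * q) = 1 + k * q := by push_cast; ring
    rw [e] at h
    rw [hE, h]
    exact div_neg_of_neg_of_pos hqim (normSq_pos.mpr hden)
  have hE0 : E ≠ 0 := by
    intro h
    rw [h] at hEim
    simp at hEim
  refine ⟨log E, ?_, ?_, ?_⟩
  · rw [log_im]; exact neg_pi_lt_arg _
  · rw [log_im]; exact arg_neg_iff.mpr hEim
  · have hqm : qmap k (log E) = q := by
      unfold qmap
      have h4 : 1 - (k : ℂ) * (q / (1 + k * q)) = 1 / (1 + k * q) := by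
        rw [eq_div_iff hden, sub_mul, mul_assoc, div_mul_cancel₀ _ hden]
        ring
      rw [exp_log hE0, hE, h4, div_div_div_cancel_right₀ hden, div_one]
    have hvm : vmap k (log E) = v := by
      unfold vmap
      rw [hqm, hq]
      have := sq_cpow_two_inv hvre
      rw [cpow_def_of_ne_zero] at this
      · rw [div_eq_mul_inv]
        exact this
      · rw [← hq]; intro h; rw [h] at hqim; simp at hqim
    unfold zmap
    rw [hvm, hv]
    field_simp
    ring

end Pool.Agent.Helper766
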