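import Mathlib
import Pool.Agent.Helper766.StripMap

set_option autoImplicit false

open Complex Polynomial Metric

namespace Pool.Agent.Helper766

/-- the auxiliary function whose real part is positive -/
noncomputable def Qf (p : ℝ[X]) (c0 : ℝ) (z : ℂ) : ℂ :=
  aeval z (derivative p) * (1 - z) * (1 - 2 * c0 * z + z ^ 2) / (1 + z)

lemma circle_conj {z : ℂ} (hz : ‖z‖ = 1) : z.re * z.re + z.im * z.im = 1 := by
  have : ‖z‖ ^ 2 = 1 := by rw [hz]; norm_num
  rwa [← normSq_eq_norm_sq, normSq_apply] at this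

lemma circle_re_gt {z : ℂ} (hz : ‖z‖ = 1) (h : z ≠ -1) : 0 < 1 + z.re := by
  have h1 := circle_conj hz
  have h2 : -1 ≤ z.re := by nlinarith [sq_nonneg z.im]
  rcases h2.lt_or_eq with h3 | h3
  · linarith
  · exfalso
    apply h
    have : z.im = 0 := by
      have : z.im * z.im = 0 := by nlinarith
      exact mul_self_eq_zero.mp this
    apply Complex.ext
    · simp [← h3]
    · simp [this]

lemma one_add_ne {z : ℂ} (h : z ≠ -1) : 1 + z ≠ 0 := by
  intro h'
  apply h
  linear_combination h'

lemma circle_quot {z : ℂ} (hz : ‖z‖ = 1) (h : z ≠ -1) :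
    (1 - z) / (1 + z) = -I * (z.im / (1 + z.re) : ℝ) := by
  have h1 := circle_conj hz
  have h2 := circle_re_gt hz h
  have h3 := one_add_ne h
  have h4 : (1 + (z.re : ℂ)) ≠ 0 := by
    intro h5
    have := congrArg re h5
    simp at this
    linarith
  rw [div_eq_iff h3]
  push_cast
  rw [mul_assoc, div_mul_eq_mul_div, mul_div_assoc', eq_div_iff h4]
  apply Complex.ext
  · simp
    nlinarith
  · simp

lemma circle_quad {z : ℂ} (hz : ‖z‖ = 1) (c0 : ℝ) :
    1 - 2 * c0 * z + z ^ 2 = z * (2 * (z.re - c0) : ℝ) := by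
  have h1 := circle_conj hz
  push_cast
  have h2 : z ^ 2 + 1 = z * (2 * z.re) := by
    apply Complex.ext
    · simp [sq]
      nlinarith
    · simp [sq]
      ring
  linear_combination h2

lemma Qf_circle (p : ℝ[X]) (c0 : ℝ) {z : ℂ} (hz : ‖z‖ = 1) (h : z ≠ -1) :
    (Qf p c0 z).re = 2 * (z.im / (1 + z.re)) * ((z.re - c0) * (z * aeval z (derivative p)).im) := by
  have h1 := circle_quot hz h
  have h2 := circle_quad hz c0
  have h3 : Qf p c0 z = (z * aeval z (derivative p)) *
      (-I * ((2 * (z.re - c0) * (z.im / (1 + z.re)) : ℝ))) := by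
    unfold Qf
    rw [h2]
    have : aeval z (derivative p) * (1 - z) * (z * ((2 * (z.re - c0) : ℝ) : ℂ)) / (1 + z) =
      (z * aeval z (derivative p)) * ((2 * (z.re - c0) : ℝ) : ℂ) * ((1 - z) / (1 + z)) := by ring
    rw [this, h1]
    push_cast
    ring
  rw [h3]
  have h5 : ∀ (A : ℂ) (r : ℝ), (A * (-I * (r : ℂ))).re = r * A.im := by
    intro A r
    simp
    ring
  rw [h5]
  ring

lemma Qf_circle_nonneg (p : ℝ[X]) (c0 : ℝ)
    (H2 : ∀ z : ℂ, ‖z‖ = 1 → 0 ≤ z.im → 0 ≤ (z.re - c0) * (z * aeval z (derivative p)).im)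
    {z : ℂ} (hz : ‖z‖ = 1) (h : z ≠ -1) : 0 ≤ (Qf p c0 z).re := by
  rw [Qf_circle p c0 hz h]
  have h2 := circle_re_gt hz h
  rcases le_or_gt 0 z.im with hy | hy
  · have := H2 z hz hy
    have : 0 ≤ z.im / (1 + z.re) := div_nonneg hy h2.le
    positivity
  · have h3 := H2 (starRingEnd ℂ z) (by simpa using hz) (by simpa using hy.le)
    rw [aeval_conj, ← map_mul] at h3
    simp only [conj_re, conj_im] at h3
    have h4 : 0 ≤ (-z.im) / (1 + z.re) := div_nonneg (by linarith) h2.le
    have h5 := mul_nonneg h4 h3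
    calc (0:ℝ) ≤ 2 * (-z.im / (1 + z.re) * ((z.re - c0) * -(z * (aeval z) (derivative p)).im)) := by
          linarith
      _ = _ := by ring

/-- splitting off the pole at `-1` -/
lemma exists_split (G : ℝ[X]) : ∃ K : ℝ[X], G = C (G.eval (-1)) + (X + 1) * K := by
  have : (X - C (-1 : ℝ)) ∣ (G - C (G.eval (-1))) := by
    rw [dvd_iff_isRoot]
    simp
  obtain ⟨K, hK⟩ := this
  refine ⟨K, ?_⟩
  have h2 : (X - C (-1 : ℝ)) = X + 1 := by simp
  rw [h2] at hK
  rw [← hK]
  ring

lemma cayley_re_pos {z : ℂ} (hz : ‖z‖ < 1) : 0 < ((1 - z) / (1 + z)).re := by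
  have h1z : 1 + z ≠ 0 := by
    intro h
    have : z = -1 := by linear_combination h
    rw [this] at hz
    simp at hz
  have hN : 0 < normSq (1 + z) := normSq_pos.mpr h1z
  have hnz : z.re * z.re + z.im * z.im < 1 := by
    have : ‖z‖ ^ 2 < 1 := by
      have := norm_nonneg z
      nlinarith
    rwa [← normSq_eq_norm_sq, normSq_apply] at this
  rw [div_re]
  have : (1 - z).re * (1 + z).re / normSq (1 + z) + (1 - z).im * (1 + z).im / normSq (1 + z) =
      (1 - (z.re * z.re + z.im * z.im)) / normSq (1 + z) := by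
    simp
    ring
  rw [this]
  exact div_pos (by linarith) hN

lemma cayley_re_circle {z : ℂ} (hz : ‖z‖ = 1) (h : z ≠ -1) : ((1 - z) / (1 + z)).re = 0 := by
  rw [circle_quot hz h, neg_mul, neg_re, re_mul_ofReal, I_re, zero_mul, neg_zero]

/-- a real polynomial with nonnegative real part on the circle has it on the disc -/
lemma re_nonneg_of_circle (R : ℝ[X]) (h : ∀ z : ℂ, ‖z‖ = 1 → 0 ≤ (aeval z R).re)
    {z : ℂ} (hz : ‖z‖ < 1) : 0 ≤ (aeval z R).re := by
  have hd : DiffContOnCl ℂ (fun z : ℂ => exp (-(aeval z R))) (ball (0 : ℂ) 1) := by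
    apply Differentiable.diffContOnCl
    exact (R.differentiable_aeval.neg).cexp
  have := norm_le_of_forall_mem_frontier_norm_le (U := ball (0 : ℂ) 1) isBounded_ball hd (C := 1)
    (by
      intro w hw
      rw [frontier_ball _ one_ne_zero, mem_sphere_zero_iff_norm] at hw
      rw [norm_exp, neg_re]
      have := h w hw
      exact Real.exp_le_one_iff.mpr (by linarith))
    (z := z) (subset_closure (by simpa using hz))
  rw [norm_exp, neg_re] at this
  have := Real.exp_le_one_iff.mp this
  linarith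

/-- behaviour of the derivative at `-1` -/
lemma deriv_neg_one_nonneg (p : ℝ[X])
    (H1 : ∀ z : ℂ, ‖z‖ = 1 → 0 ≤ z.im → 0 ≤ (aeval z p).im) :
    0 ≤ (derivative p).eval (-1) := by
  -- f t = im F(e^{it})
  set f : ℝ → ℝ := fun t => (aeval (exp (t * I)) p).im with hf
  have hexp : ∀ t : ℝ, HasDerivAt (fun t : ℝ => exp (t * I)) (exp (t * I) * I) t := by
    intro t
    have h1 : HasDerivAt (fun t : ℝ => (t : ℂ) * I) I t := by
      simpa using (hasDerivAt_id t).ofReal_comp.mul_const I
    exact h1.cexp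
  have hF : ∀ t : ℝ, HasDerivAt (fun t : ℝ => aeval (exp (t * I)) p)
      (aeval (exp (t * I)) (derivative p) * (exp (t * I) * I)) t := by
    intro t
    exact (p.hasDerivAt_aeval (exp (t * I))).comp t (hexp t)
  have hfd : HasDerivAt f (-(derivative p).eval (-1)) Real.pi := by
    have h1 := (hF Real.pi)
    have h2 : HasDerivAt f ((aeval (exp (Real.pi * I)) (derivative p) *
        (exp (Real.pi * I) * I)).im) Real.pi := by
      have := (Complex.imCLM.hasFDerivAt).comp_hasDerivAt Real.pi h1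
      exact this
    refine h2.congr_deriv ?_
    rw [exp_pi_mul_I]
    have h3 : aeval (-1 : ℂ) (derivative p) = (((derivative p).eval (-1) : ℝ) : ℂ) := by
      have : (-1 : ℂ) = algebraMap ℝ ℂ (-1) := by simp
      rw [this, aeval_algebraMap_apply]
      simp
    rw [h3]
    simp
  have hfpi : f Real.pi = 0 := by
    have h3 : aeval (-1 : ℂ) p = ((p.eval (-1) : ℝ) : ℂ) := by
      have : (-1 : ℂ) = algebraMap ℝ ℂ (-1) := by simp
      rw [this, aeval_algebraMap_apply]
      simp
    rw [hf]
    simp only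
    rw [exp_pi_mul_I, h3]
    simp
  have hfnn : ∀ t ∈ Set.Icc 0 Real.pi, 0 ≤ f t := by
    intro t ht
    apply H1
    · exact norm_exp_ofReal_mul_I t
    · rw [exp_ofReal_mul_I_im]
      exact Real.sin_nonneg_of_mem_Icc ht
  have hslope := (hasDerivAt_iff_tendsto_slope.mp hfd)
  have hslope' : Filter.Tendsto (slope f Real.pi) (nhdsWithin Real.pi (Set.Iio Real.pi))
      (nhds (-(derivative p).eval (-1))) := by
    apply hslope.mono_left
    apply nhdsWithin_mono
    intro x hx
    exact ne_of_lt hx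
  have hle : -(derivative p).eval (-1) ≤ 0 := by
    apply le_of_tendsto hslope'
    have : Set.Ioo 0 Real.pi ∈ nhdsWithin Real.pi (Set.Iio Real.pi) := by
      apply Ioo_mem_nhdsLT
      exact Real.pi_pos
    filter_upwards [this] with t ht
    rw [slope_def_field, hfpi, sub_zero]
    apply div_nonpos_of_nonneg_of_nonpos (hfnn t ⟨ht.1.le, ht.2.le⟩)
    linarith [ht.2]
  linarith

/-- main positivity -/
lemma Qf_re_nonneg (p : ℝ[X]) (c0 : ℝ) (hc1 : -1 < c0)
    (H1 : ∀ z : ℂ, ‖z‖ = 1 → 0 ≤ z.im → 0 ≤ (aeval z p).im)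
    (H2 : ∀ z : ℂ, ‖z‖ = 1 → 0 ≤ z.im → 0 ≤ (z.re - c0) * (z * aeval z (derivative p)).im)
    {z : ℂ} (hz : ‖z‖ < 1) : 0 ≤ (Qf p c0 z).re := by
  set G : ℝ[X] := derivative p * (1 - C (2 * c0) * X + X ^ 2) with hG
  obtain ⟨K, hK⟩ := exists_split G
  set R : ℝ[X] := (1 - X) * K with hR
  have hsplit : ∀ z : ℂ, z ≠ -1 → Qf p c0 z = (G.eval (-1) : ℝ) * ((1 - z) / (1 + z)) + aeval z R := by
    intro z hz
    have h1 := one_add_ne hz
    have h2 : aeval z G = aeval z (derivative p) * (1 - 2 * c0 * z + z ^ 2) := by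
      rw [hG]; simp
    have h3 : aeval z G = (G.eval (-1) : ℝ) + (z + 1) * aeval z K := by
      conv_lhs => rw [hK]
      simp
    unfold Qf
    have h4 : aeval z R = (1 - z) * aeval z K := by rw [hR]; simp
    rw [h4]
    have h5 : aeval z (derivative p) * (1 - z) * (1 - 2 * ↑c0 * z + z ^ 2) / (1 + z) =
      (1 - z) * (aeval z G) / (1 + z) := by rw [h2]; ring
    rw [h5, h3]
    field_simp
    ring
  have hGpos : 0 ≤ G.eval (-1) := by
    have h1 := deriv_neg_one_nonneg p H1
    have h2 : G.eval (-1) = (derivative p).eval (-1) * (2 + 2 * c0) := by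
      rw [hG]
      simp
      left
      ring
    rw [h2]
    apply mul_nonneg h1
    linarith
  have hRcirc : ∀ z : ℂ, ‖z‖ = 1 → z ≠ -1 → 0 ≤ (aeval z R).re := by
    intro z hz hne
    have h1 := Qf_circle_nonneg p c0 H2 hz hne
    rw [hsplit z hne, add_re, re_ofReal_mul, cayley_re_circle hz hne] at h1
    linarith
  have hRcirc' : ∀ z : ℂ, ‖z‖ = 1 → 0 ≤ (aeval z R).re := by
    intro z hz
    by_cases hne : z = -1
    · subst hne
      -- limiting argument
      set g : ℝ → ℝ := fun t => (aeval (exp (t * I)) R).re with hg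
      have hgc : Continuous g := by
        have h1 : Continuous (fun t : ℝ => exp (t * I)) := by fun_prop
        exact Complex.continuous_re.comp (R.continuous_aeval.comp h1)
      have hgpi : g Real.pi = (aeval (-1 : ℂ) R).re := by
        rw [hg]
        simp only
        rw [exp_pi_mul_I]
      rw [← hgpi]
      have ht : Filter.Tendsto g (nhdsWithin Real.pi (Set.Iio Real.pi)) (nhds (g Real.pi)) :=
        (hgc.tendsto Real.pi).mono_left nhdsWithin_le_nhds
      apply ge_of_tendsto ht
      have : Set.Ioo 0 Real.pi ∈ nhdsWithin Real.pi (Set.Iio Real.pi) := by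
        apply Ioo_mem_nhdsLT
        exact Real.pi_pos
      filter_upwards [this] with t ht
      apply hRcirc _ (norm_exp_ofReal_mul_I t)
      intro h
      have h2 := congrArg im h
      rw [exp_ofReal_mul_I_im] at h2
      have h3 := Real.sin_pos_of_mem_Ioo ht
      simp at h2
      linarith
    · exact hRcirc z hz hne
  have hzne : z ≠ -1 := by
    intro h
    rw [h] at hz
    simp at hz
  rw [hsplit z hzne, add_re, re_ofReal_mul]
  have h1 := re_nonneg_of_circle R hRcirc' hz
  have h2 := cayley_re_pos hz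
  positivity

lemma Qf_differentiableOn (p : ℝ[X]) (c0 : ℝ) : DifferentiableOn ℂ (Qf p c0) (ball 0 1) := by
  intro z hz
  have h1z : 1 + z ≠ 0 := by
    intro h
    have : z = -1 := by linear_combination h
    rw [this] at hz
    simp at hz
  apply DifferentiableAt.differentiableWithinAt
  unfold Qf
  apply DifferentiableAt.div
  · apply DifferentiableAt.mul
    · apply DifferentiableAt.mul
      · exact (derivative p).differentiable_aeval z
      · fun_prop
    · fun_prop
  · fun_prop
  · exact h1z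

lemma Qf_re_pos (p : ℝ[X]) (c0 : ℝ) (hc1 : -1 < c0) (hp : 0 < (derivative p).eval 0)
    (H1 : ∀ z : ℂ, ‖z‖ = 1 → 0 ≤ z.im → 0 ≤ (aeval z p).im)
    (H2 : ∀ z : ℂ, ‖z‖ = 1 → 0 ≤ z.im → 0 ≤ (z.re - c0) * (z * aeval z (derivative p)).im)
    {z : ℂ} (hz : ‖z‖ < 1) : 0 < (Qf p c0 z).re := by
  have hQ0 : Qf p c0 0 = (((derivative p).eval 0 : ℝ) : ℂ) := by
    unfold Qf
    have : (0 : ℂ) = algebraMap ℝ ℂ 0 := by simp
    rw [this, aeval_algebraMap_apply]
    simp
  have han : AnalyticOnNhd ℂ (Qf p c0) (ball 0 1) :=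
    (Qf_differentiableOn p c0).analyticOnNhd isOpen_ball
  have hz' : z ∈ ball (0 : ℂ) 1 := by simpa using hz
  rcases han.is_constant_or_isOpen (convex_ball (0 : ℂ) 1).isPreconnected with ⟨w, hw⟩ | hopen
  · rw [hw z hz', ← hw 0 (by simp), hQ0, ofReal_re]
    exact hp
  · have ho := hopen (ball 0 1) subset_rfl isOpen_ball
    have hsub : Qf p c0 '' ball 0 1 ⊆ {w : ℂ | 0 ≤ w.re} := by
      rintro _ ⟨x, hx, rfl⟩
      exact Qf_re_nonneg p c0 hc1 H1 H2 (by simpa using hx)
    have h1 : Qf p c0 z ∈ interior {w : ℂ | 0 ≤ w.re} :=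
      interior_maximal hsub ho ⟨z, hz', rfl⟩
    rw [interior_setOfPred_le_re] at h1
    exact h1

/-- `p` is typically real. -/
lemma im_pos_of_im_pos (p : ℝ[X]) (c0 : ℝ) (hc1 : -1 < c0) (hp : 0 < (derivative p).eval 0)
    (H1 : ∀ z : ℂ, ‖z‖ = 1 → 0 ≤ z.im → 0 ≤ (aeval z p).im)
    (H2 : ∀ z : ℂ, ‖z‖ = 1 → 0 ≤ z.im → 0 ≤ (z.re - c0) * (z * aeval z (derivative p)).im)
    {z : ℂ} (hz : ‖z‖ < 1) (hzi : 0 < z.im) : 0 < (aeval z p).im := by
  set U : Set ℂ := ball 0 1 ∩ {w : ℂ | 0 < w.im} with hU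
  have hUo : IsOpen U := isOpen_ball.inter (isOpen_lt continuous_const continuous_im)
  have hUb : Bornology.IsBounded U := isBounded_ball.subset Set.inter_subset_left
  have hcl : closure U ⊆ closedBall 0 1 ∩ {w : ℂ | 0 ≤ w.im} := by
    apply closure_minimal
    · intro w hw
      refine ⟨ball_subset_closedBall hw.1, ?_⟩
      have : 0 < w.im := hw.2
      exact this.le
    · exact isClosed_closedBall.inter (isClosed_le continuous_const continuous_im)
  have hreal : ∀ w : ℂ, w.im = 0 → (aeval w p).im = 0 := by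
    intro w hw
    have : w = algebraMap ℝ ℂ w.re := by
      apply Complex.ext <;> simp [hw]
    rw [this, aeval_algebraMap_apply]
    simp
  have hnn : ∀ w ∈ U, 0 ≤ (aeval w p).im := by
    intro w hw
    have hd : DiffContOnCl ℂ (fun z : ℂ => exp (I * (aeval z p))) U := by
      apply Differentiable.diffContOnCl
      exact (p.differentiable_aeval.const_mul I).cexp
    have := norm_le_of_forall_mem_frontier_norm_le (U := U) hUb hd (C := 1)
      (by
        intro v hv
        have hv1 := hcl (frontier_subset_closure hv)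
        have hv2 : v ∉ U := by
          rw [hUo.frontier_eq] at hv
          exact hv.2
        have : 0 ≤ (aeval v p).im := by
          by_cases hvi : v.im = 0
          · rw [hreal v hvi]
          · have hvi' : 0 < v.im := lt_of_le_of_ne hv1.2 (Ne.symm hvi)
            apply H1 v _ hvi'.le
            have h1 : ‖v‖ ≤ 1 := by simpa using hv1.1
            by_contra hne
            apply hv2
            refine ⟨?_, hvi'⟩
            simpa using lt_of_le_of_ne h1 hne
        rw [norm_exp]
        have h3 : (I * (aeval v p)).re = -(aeval v p).im := by simp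
        rw [h3]
        exact Real.exp_le_one_iff.mpr (by linarith))
      (z := w) (subset_closure hw)
    rw [norm_exp] at this
    have h3 : (I * (aeval w p)).re = -(aeval w p).im := by simp
    rw [h3] at this
    have := Real.exp_le_one_iff.mp this
    linarith
  -- strictness through the open mapping property
  have hzU : z ∈ U := ⟨by simpa using hz, hzi⟩
  have hd0 : aeval z (derivative p) ≠ 0 := by
    intro h
    have h1 := Qf_re_pos p c0 hc1 hp H1 H2 hz
    unfold Qf at h1
    rw [h] at h1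
    simp at h1
  have hstrict : HasStrictDerivAt (fun x : ℂ => aeval x p) (aeval z (derivative p)) z :=
    p.hasStrictDerivAt_aeval z
  have hmap := hstrict.map_nhds_eq hd0
  have hmem : (fun x : ℂ => aeval x p) '' U ∈ nhds (aeval z p) := by
    rw [← hmap]
    exact Filter.image_mem_map (hUo.mem_nhds hzU)
  have hsub : (fun x : ℂ => aeval x p) '' U ⊆ {w : ℂ | 0 ≤ w.im} := by
    rintro _ ⟨x, hx, rfl⟩
    exact hnn x hx
  have h1 : aeval z p ∈ interior {w : ℂ | 0 ≤ w.im} := by
    rw [mem_interior_iff_mem_nhds]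
    exact Filter.mem_of_superset hmem hsub
  rw [interior_setOfPred_le_im] at h1
  exact h1

/-- injectivity on the upper half disc -/
lemma injOn_upper (p : ℝ[X]) (c0 : ℝ) (hc1 : -1 < c0) (hc2 : c0 < 1)
    (hQ : ∀ z : ℂ, ‖z‖ < 1 → 0 < (Qf p c0 z).re)
    {z1 z2 : ℂ} (h1 : ‖z1‖ < 1) (h1' : 0 < z1.im) (h2 : ‖z2‖ < 1) (h2' : 0 < z2.im)
    (heq : aeval z1 p = aeval z2 p) : z1 = z2 := by
  set k : ℝ := (1 + c0) / (1 - c0) with hk
  have hk0 : 0 < k := div_pos (by linarith) (by linarith)
  obtain ⟨w1, a1, b1, e1⟩ := exists_strip_preimage hk0 h1 h1'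
  obtain ⟨w2, a2, b2, e2⟩ := exists_strip_preimage hk0 h2 h2'
  by_cases hw : w1 = w2
  · rw [← e1, ← e2, hw]
  exfalso
  -- derivative of the composite
  have hder : ∀ w : ℂ, -Real.pi < w.im → w.im < 0 →
      HasDerivAt (fun w => aeval (zmap k w) p)
        (-(Qf p c0 (zmap k w)) / (2 * (1 - c0))) w := by
    intro w ha hb
    have hz := hasDerivAt_zmap hk0 ha hb
    have := (p.hasDerivAt_aeval (zmap k w)).comp w hz
    refine this.congr_deriv ?_
    have hv := one_add_vmap_ne_zero hk0 ha hb
    have hc : (1 - (c0 : ℂ)) ≠ 0 := by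
      intro h
      have := congrArg re h
      simp at this
      linarith
    unfold Qf zmap
    rw [hk]
    generalize aeval ((1 - vmap ((1 + c0) / (1 - c0)) w) / (1 + vmap ((1 + c0) / (1 - c0)) w))
      (derivative p) = D
    have hv' : (1 + vmap ((1 + c0) / (1 - c0)) w) ≠ 0 := hv
    generalize vmap ((1 + c0) / (1 - c0)) w = v at hv'
    have h3 : 1 + (1 - v) / (1 + v) = 2 / (1 + v) := by
      field_simp
      ring
    have h4 : 1 - (1 - v) / (1 + v) = 2 * v / (1 + v) := by
      field_simp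
      ring
    rw [h3, h4]
    push_cast
    field_simp
    ring
  set d : ℂ := w2 - w1 with hd
  have hd0 : d ≠ 0 := by
    intro h
    apply hw
    rw [hd] at h
    linear_combination -h
  set g : ℝ → ℝ := fun s => ((aeval (zmap k (w1 + s * d)) p) / d).re with hg
  have hgd : ∀ s ∈ Set.Icc (0 : ℝ) 1,
      HasDerivAt g (-(Qf p c0 (zmap k (w1 + s * d))).re / (2 * (1 - c0))) s := by
    intro s hs
    have him : (w1 + s * d).im = (1 - s) * w1.im + s * w2.im := by
      simp [hd]; ring
    have ha : -Real.pi < (w1 + s * d).im := by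
      rw [him]
      rcases hs.1.eq_or_lt with h | h
      · rw [← h]; simpa using a1
      · nlinarith [mul_lt_mul_of_pos_left a2 h, mul_le_mul_of_nonneg_left a1.le (sub_nonneg.mpr hs.2)]
    have hb : (w1 + s * d).im < 0 := by
      rw [him]
      rcases hs.1.eq_or_lt with h | h
      · rw [← h]; simpa using b1
      · nlinarith [mul_lt_mul_of_pos_left b2 h, mul_le_mul_of_nonneg_left b1.le (sub_nonneg.mpr hs.2)]
    have hl : HasDerivAt (fun s : ℝ => w1 + s * d) d s := by
      simpa using ((hasDerivAt_id s).ofReal_comp.mul_const d).const_add w1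
    have h3 := (hder _ ha hb).comp s hl
    have h4 := h3.div_const d
    have h5 : HasDerivAt g ((-(Qf p c0 (zmap k (w1 + s * d))) / (2 * (1 - c0)) * d / d).re) s :=
      (Complex.reCLM.hasFDerivAt).comp_hasDerivAt s h4
    refine h5.congr_deriv ?_
    rw [mul_div_assoc, div_self hd0, mul_one]
    have : (2 * (1 - (c0 : ℂ))) = ((2 * (1 - c0) : ℝ) : ℂ) := by push_cast; ring
    rw [this, div_ofReal_re, neg_re]
  have hanti : StrictAntiOn g (Set.Icc 0 1) := by
    apply strictAntiOn_of_deriv_neg (convex_Icc 0 1)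
    · intro s hs
      exact (hgd s hs).continuousAt.continuousWithinAt
    · intro s hs
      rw [interior_Icc] at hs
      have hs' : s ∈ Set.Icc (0 : ℝ) 1 := ⟨hs.1.le, hs.2.le⟩
      rw [(hgd s hs').deriv]
      have him : (w1 + s * d).im = (1 - s) * w1.im + s * w2.im := by
        simp [hd]; ring
      have ha : -Real.pi < (w1 + s * d).im := by
        rw [him]
        nlinarith [mul_lt_mul_of_pos_left a2 hs.1, mul_le_mul_of_nonneg_left a1.le (sub_nonneg.mpr hs.2.le)]
      have hb : (w1 + s * d).im < 0 := by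
        rw [him]
        nlinarith [mul_lt_mul_of_pos_left b2 hs.1, mul_le_mul_of_nonneg_left b1.le (sub_nonneg.mpr hs.2.le)]
      have h3 := hQ _ (zmap_norm_lt_one hk0 ha hb)
      apply div_neg_of_neg_of_pos
      · linarith
      · linarith
  have h0 : g 0 = g 1 := by
    rw [hg]
    simp only
    have h3 : w1 + ((0 : ℝ) : ℂ) * d = w1 := by simp
    have h4 : w1 + ((1 : ℝ) : ℂ) * d = w2 := by simp [hd]
    rw [h3, h4, e1, e2, heq]
  have := hanti (Set.left_mem_Icc.mpr zero_le_one) (Set.right_mem_Icc.mpr zero_le_one) one_pos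
  linarith

/-- **Half-disc univalence criterion.** -/
theorem injOn_ball (p : ℝ[X]) (c0 : ℝ) (hc1 : -1 < c0) (hc2 : c0 < 1)
    (hp : 0 < (derivative p).eval 0)
    (H1 : ∀ z : ℂ, ‖z‖ = 1 → 0 ≤ z.im → 0 ≤ (aeval z p).im)
    (H2 : ∀ z : ℂ, ‖z‖ = 1 → 0 ≤ z.im → 0 ≤ (z.re - c0) * (z * aeval z (derivative p)).im) :
    Set.InjOn (fun z : ℂ => aeval z p) (ball 0 1) := by
  have hQ : ∀ z : ℂ, ‖z‖ < 1 → 0 < (Qf p c0 z).re := fun z hz =>
    Qf_re_pos p c0 hc1 hp H1 H2 hz
  have hpos : ∀ z : ℂ, ‖z‖ < 1 → 0 < z.im → 0 < (aeval z p).im := fun z hz hzi =>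
    im_pos_of_im_pos p c0 hc1 hp H1 H2 hz hzi
  have hneg : ∀ z : ℂ, ‖z‖ < 1 → z.im < 0 → (aeval z p).im < 0 := by
    intro z hz hzi
    have := hpos (starRingEnd ℂ z) (by simpa using hz) (by simpa using hzi)
    rw [aeval_conj, conj_im] at this
    linarith
  have hzero : ∀ z : ℂ, z.im = 0 → (aeval z p).im = 0 := by
    intro w hw
    have : w = algebraMap ℝ ℂ w.re := by
      apply Complex.ext <;> simp [hw]
    rw [this, aeval_algebraMap_apply]
    simp
  -- real axis
  have hmono : StrictMonoOn (fun x : ℝ => p.eval x) (Set.Ioo (-1) 1) := by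
    apply strictMonoOn_of_deriv_pos (convex_Ioo (-1) 1)
    · exact p.continuous.continuousOn
    · intro x hx
      rw [interior_Ioo] at hx
      rw [p.deriv]
      have hx1 : ‖(x : ℂ)‖ < 1 := by
        rw [norm_real, Real.norm_eq_abs, abs_lt]
        exact hx
      have h1 := hQ x hx1
      have h2 : Qf p c0 x =
          (((derivative p).eval x * (1 - x) * (1 - 2 * c0 * x + x ^ 2) / (1 + x) : ℝ) : ℂ) := by
        unfold Qf
        have : (x : ℂ) = algebraMap ℝ ℂ x := by simp
        rw [this, aeval_algebraMap_apply]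
        simp
      rw [h2, ofReal_re] at h1
      have h3 : 0 < (1 - x) := by linarith [hx.2]
      have h4 : 0 < 1 + x := by linarith [hx.1]
      have h5 : 0 < 1 - 2 * c0 * x + x ^ 2 := by nlinarith [sq_nonneg (x - c0)]
      have h6 : 0 < (derivative p).eval x * ((1 - x) * (1 - 2 * c0 * x + x ^ 2) / (1 + x)) := by
        calc 0 < (derivative p).eval x * (1 - x) * (1 - 2 * c0 * x + x ^ 2) / (1 + x) := h1
          _ = _ := by ring
      exact (pos_iff_pos_of_mul_pos h6).mpr (by positivity)
  intro z1 hz1 z2 hz2 heq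
  simp only [mem_ball_zero_iff] at hz1 hz2
  simp only at heq
  rcases lt_trichotomy z1.im 0 with a | a | a
  · have ha := hneg z1 hz1 a
    rcases lt_trichotomy z2.im 0 with b | b | b
    · have hc : aeval (starRingEnd ℂ z1) p = aeval (starRingEnd ℂ z2) p := by
        rw [aeval_conj, aeval_conj, heq]
      have := injOn_upper p c0 hc1 hc2 hQ (z1 := starRingEnd ℂ z1) (z2 := starRingEnd ℂ z2)
        (by simpa using hz1) (by simpa using a) (by simpa using hz2) (by simpa using b) hc
      exact (starRingEnd ℂ).injective this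
    · have hb := hzero z2 b
      rw [heq] at ha
      linarith
    · have hb := hpos z2 hz2 b
      rw [heq] at ha
      linarith
  · have ha := hzero z1 a
    rcases lt_trichotomy z2.im 0 with b | b | b
    · have hb := hneg z2 hz2 b
      rw [heq] at ha
      linarith
    · have r1 : z1 = algebraMap ℝ ℂ z1.re := by
        apply Complex.ext <;> simp [a]
      have r2 : z2 = algebraMap ℝ ℂ z2.re := by
        apply Complex.ext <;> simp [b]
      rw [r1, r2, aeval_algebraMap_apply, aeval_algebraMap_apply] at heq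
      have heq' : p.eval z1.re = p.eval z2.re := by
        simpa using heq
      have m1 : z1.re ∈ Set.Ioo (-1 : ℝ) 1 := by
        rw [Set.mem_Ioo, ← abs_lt]
        exact lt_of_le_of_lt (abs_re_le_norm z1) hz1
      have m2 : z2.re ∈ Set.Ioo (-1 : ℝ) 1 := by
        rw [Set.mem_Ioo, ← abs_lt]
        exact lt_of_le_of_lt (abs_re_le_norm z2) hz2
      have := hmono.injOn m1 m2 heq'
      rw [r1, r2, this]
    · have hb := hpos z2 hz2 b
      rw [heq] at ha
      linarith
  · have ha := hpos z1 hz1 a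
    rcases lt_trichotomy z2.im 0 with b | b | b
    · have hb := hneg z2 hz2 b
      rw [heq] at ha
      linarith
    · have hb := hzero z2 b
      rw [heq] at ha
      linarith
    · exact injOn_upper p c0 hc1 hc2 hQ hz1 a hz2 b heq

end Pool.Agent.Helper766
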