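import Mathlib
import Pool.Agent.Helper766.Criterion
import Pool.Agent.Helper766.ClosedForm
import Pool.Agent.Helper766.ChebPart

set_option autoImplicit false

open Polynomial Finset

namespace Pool.Agent.Helper766

/-- the coefficients of `F_N` -/
noncomputable def coef (N j : ℕ) : ℝ :=
  Polynomial.eval (Real.cos (Real.pi / ((N : ℝ) + 2)))
      (Polynomial.derivative (Polynomial.Chebyshev.U ℝ ((N : ℤ) - (j : ℤ) + 1))) *
    Polynomial.eval (Real.cos (Real.pi / ((N : ℝ) + 2)))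
      (Polynomial.Chebyshev.U ℝ ((j : ℤ) - 1)) /
    Polynomial.eval (Real.cos (Real.pi / ((N : ℝ) + 2)))
      (Polynomial.derivative (Polynomial.Chebyshev.U ℝ (N : ℤ)))

/-- `sin³θ U_m'(cos θ) = cos θ sin((m+1)θ) - (m+1) sin θ cos((m+1)θ)` -/
lemma deriv_U_cos (m : ℤ) (θ : ℝ) :
    Real.sin θ ^ 3 * (derivative (Chebyshev.U ℝ m)).eval (Real.cos θ) =
      Real.cos θ * Real.sin ((m + 1) * θ) - (m + 1) * Real.sin θ * Real.cos ((m + 1) * θ) := by
  have h := congrArg (fun p => p.eval (Real.cos θ)) (Chebyshev.add_one_mul_T_eq_poly_in_U (R := ℝ) m)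
  simp at h
  have h1 := Chebyshev.U_real_cos θ m
  have h3 : Real.sin θ ^ 2 = 1 - Real.cos θ ^ 2 := Real.sin_sq θ
  have h4 : Real.sin θ ^ 3 * (derivative (Chebyshev.U ℝ m)).eval (Real.cos θ) =
    Real.sin θ * ((1 - Real.cos θ ^ 2) * (derivative (Chebyshev.U ℝ m)).eval (Real.cos θ)) := by
    rw [← h3]; ring
  rw [h4]
  have h5 : (1 - Real.cos θ ^ 2) * (derivative (Chebyshev.U ℝ m)).eval (Real.cos θ) =
    Real.cos θ * (Chebyshev.U ℝ m).eval (Real.cos θ) - (m + 1) * Real.cos ((m + 1) * θ) := by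
    linear_combination h
  rw [h5, mul_sub, ← h1]
  ring

lemma coef_eq {N j : ℕ} (hN : 1 ≤ N) :
    coef N j = bc (N + 2) j / ((N : ℝ) + 2) := by
  have hM : (0 : ℝ) < (N : ℝ) + 2 := by positivity
  have hN1 : (1 : ℝ) ≤ N := by exact_mod_cast hN
  set θ : ℝ := Real.pi / ((N : ℝ) + 2) with hθ
  have hθ0 : 0 < θ := by positivity
  have hMθ : ((N : ℝ) + 2) * θ = Real.pi := by rw [hθ]; field_simp
  have hθ3 : θ ≤ Real.pi / 3 := by
    apply div_le_div_of_nonneg_left Real.pi_pos.le (by norm_num)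
    linarith
  have hs : 0 < Real.sin θ := Real.sin_pos_of_pos_of_lt_pi hθ0 (by linarith [Real.pi_pos])
  have hc : 0 < Real.cos θ := Real.cos_pos_of_mem_Ioo ⟨by linarith [Real.pi_pos],
    by linarith [Real.pi_pos]⟩
  have hden : Real.sin θ ^ 2 * (derivative (Chebyshev.U ℝ (N : ℤ))).eval (Real.cos θ) =
      ((N : ℝ) + 2) * Real.cos θ := by
    have h := deriv_U_cos (N : ℤ) θ
    have h1 : (((N : ℤ) : ℝ) + 1) * θ = Real.pi - θ := by
      push_cast
      linear_combination hMθ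
    rw [h1, Real.sin_pi_sub, Real.cos_pi_sub] at h
    push_cast at h
    apply mul_left_cancel₀ hs.ne'
    linear_combination h
  have hnum : Real.sin θ ^ 3 *
      (derivative (Chebyshev.U ℝ ((N : ℤ) - (j : ℤ) + 1))).eval (Real.cos θ) =
      Real.cos θ * Real.sin (j * θ) + ((N : ℝ) + 2 - j) * Real.sin θ * Real.cos (j * θ) := by
    have h := deriv_U_cos ((N : ℤ) - (j : ℤ) + 1) θ
    have h1 : ((((N : ℤ) - (j : ℤ) + 1 : ℤ) : ℝ) + 1) * θ = Real.pi - j * θ := by
      push_cast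
      linear_combination hMθ
    rw [h1, Real.sin_pi_sub, Real.cos_pi_sub] at h
    push_cast at h
    rw [h]
    ring
  have hU : (Chebyshev.U ℝ ((j : ℤ) - 1)).eval (Real.cos θ) * Real.sin θ =
      Real.sin (j * θ) := by
    have h := Chebyshev.U_real_cos θ ((j : ℤ) - 1)
    push_cast at h
    rw [h]
    congr 1
    ring
  have hφ : 2 * Real.pi / ((N + 2 : ℕ) : ℝ) = 2 * θ := by
    rw [hθ]; push_cast; ring
  unfold coef bc
  rw [← hθ, hφ]
  have e1 : Real.cos ((j : ℝ) * (2 * θ)) = 1 - 2 * Real.sin (j * θ) ^ 2 := by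
    have : (j : ℝ) * (2 * θ) = 2 * (j * θ) := by ring
    rw [this, Real.cos_two_mul, Real.cos_sq']
    ring
  have e2 : Real.sin ((j : ℝ) * (2 * θ)) = 2 * Real.sin (j * θ) * Real.cos (j * θ) := by
    have : (j : ℝ) * (2 * θ) = 2 * (j * θ) := by ring
    rw [this, Real.sin_two_mul]
  have e3 : Real.cos (2 * θ) = 1 - 2 * Real.sin θ ^ 2 := by
    rw [Real.cos_two_mul, Real.cos_sq']
    ring
  rw [e1, e2, e3, Real.sin_two_mul]
  push_cast
  set A := (derivative (Chebyshev.U ℝ ((N : ℤ) - (j : ℤ) + 1))).eval (Real.cos θ)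
  set B := (Chebyshev.U ℝ ((j : ℤ) - 1)).eval (Real.cos θ)
  set D := (derivative (Chebyshev.U ℝ (N : ℤ))).eval (Real.cos θ)
  have hD : D ≠ 0 := by
    intro h
    rw [h, mul_zero] at hden
    have : 0 < ((N : ℝ) + 2) * Real.cos θ := by positivity
    linarith
  have hA : A = (Real.cos θ * Real.sin (j * θ) +
      ((N : ℝ) + 2 - j) * Real.sin θ * Real.cos (j * θ)) / Real.sin θ ^ 3 := by
    rw [eq_div_iff (by positivity)]
    linear_combination hnum
  have hB : B = Real.sin (j * θ) / Real.sin θ := by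
    rw [eq_div_iff hs.ne']
    exact hU
  have hD' : D = ((N : ℝ) + 2) * Real.cos θ / Real.sin θ ^ 2 := by
    rw [eq_div_iff (by positivity)]
    linear_combination hden
  rw [hA, hB, hD']
  field_simp
  ring

lemma bc_zero (M : ℕ) : bc M 0 = 0 := by
  unfold bc
  simp

lemma bc_last {N : ℕ} (hN : 1 ≤ N) : bc (N + 2) (N + 1) = 0 := by
  have hM : (0 : ℝ) < (N : ℝ) + 2 := by positivity
  have hN1 : (1 : ℝ) ≤ N := by exact_mod_cast hN
  unfold bc
  set φ : ℝ := 2 * Real.pi / ((N + 2 : ℕ) : ℝ) with hφ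
  have hMφ : ((N : ℝ) + 2) * φ = 2 * Real.pi := by
    rw [hφ]; push_cast; field_simp
  have h1 : ((N + 1 : ℕ) : ℝ) * φ = 2 * Real.pi - φ := by
    push_cast
    linear_combination hMφ
  rw [h1, Real.cos_two_pi_sub, Real.sin_two_pi_sub]
  have hφ0 : 0 < φ := by positivity
  have hφπ : φ < Real.pi := by
    have : 3 * φ ≤ 2 * Real.pi := by nlinarith
    linarith [Real.pi_pos]
  have hs : Real.sin φ ≠ 0 := (Real.sin_pos_of_pos_of_lt_pi hφ0 hφπ).ne'
  have hc : 1 - Real.cos φ ≠ 0 := by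
    have h : Real.cos φ < Real.cos 0 :=
      Real.cos_lt_cos_of_nonneg_of_le_pi le_rfl hφπ.le hφ0
    rw [Real.cos_zero] at h
    linarith
  rw [div_self hc]
  push_cast
  field_simp
  ring

lemma bc_one {M : ℕ} (hM : 3 ≤ M) : bc M 1 = M := by
  have hMR : (3 : ℝ) ≤ M := by exact_mod_cast hM
  have hMpos : (0 : ℝ) < M := by linarith
  unfold bc
  set φ : ℝ := 2 * Real.pi / M with hφ
  have hφ0 : 0 < φ := by positivity
  have hφπ : φ < Real.pi := by
    rw [hφ, div_lt_iff₀ hMpos]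
    nlinarith [Real.pi_pos]
  have hs : Real.sin φ ≠ 0 := (Real.sin_pos_of_pos_of_lt_pi hφ0 hφπ).ne'
  have hc : 1 - Real.cos φ ≠ 0 := by
    have h : Real.cos φ < Real.cos 0 :=
      Real.cos_lt_cos_of_nonneg_of_le_pi le_rfl hφπ.le hφ0
    rw [Real.cos_zero] at h
    linarith
  rw [Nat.cast_one, one_mul, div_self hc]
  field_simp
  ring

/-- the polynomial `F_N` -/
noncomputable def FN (N : ℕ) : ℝ[X] := ∑ j ∈ Icc 1 N, C (coef N j) * X ^ j

lemma aeval_FN (N : ℕ) (z : ℂ) : aeval z (FN N) = ∑ j ∈ Icc 1 N, ((coef N j : ℝ) : ℂ) * z ^ j := by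
  unfold FN
  simp

lemma aeval_FN_range {N : ℕ} (hN : 1 ≤ N) (z : ℂ) :
    ((N : ℂ) + 2) * aeval z (FN N) = ∑ j ∈ range (N + 2), (bc (N + 2) j : ℂ) * z ^ j := by
  rw [aeval_FN, sum_range_succ, bc_last hN, range_eq_Ico, sum_eq_sum_Ico_succ_bot (by omega),
    bc_zero]
  have : Icc 1 N = Ico (0 + 1) (N + 1) := by
    ext j
    simp only [mem_Icc, mem_Ico]
    omega
  rw [this, mul_sum]
  simp only [Complex.ofReal_zero, zero_mul, zero_add, add_zero]
  apply sum_congr rfl
  intro j _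
  rw [coef_eq hN]
  have : ((N : ℂ) + 2) ≠ 0 := by
    have : ((N : ℝ) + 2) ≠ 0 := by positivity
    exact_mod_cast this
  push_cast
  field_simp

lemma circle_quot' {z : ℂ} (hz : ‖z‖ = 1) (h : z.re < 1) :
    (1 + z) = (1 - z) * (Complex.I * (z.im / (1 - z.re) : ℝ)) := by
  have h1 := circle_conj hz
  have h4 : (1 - (z.re : ℂ)) ≠ 0 := by
    intro h5
    have := congrArg Complex.re h5
    simp at this
    linarith
  push_cast
  rw [← mul_assoc, mul_div_assoc', eq_div_iff h4]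
  apply Complex.ext
  · simp
    nlinarith
  · simp
    nlinarith

/-- `M`-multiple of the closed form on the circle -/
lemma circle_form {N : ℕ} (hN : 1 ≤ N) {z : ℂ} (hz : ‖z‖ = 1) (h : z.re < 1) :
    2 * ((z.re - Real.cos (2 * Real.pi / ((N : ℝ) + 2)) : ℝ) : ℂ) ^ 2 * (((N : ℂ) + 2) * aeval z (FN N)) =
      ((N : ℂ) + 2) * ((z.re - Real.cos (2 * Real.pi / ((N : ℝ) + 2)) : ℝ) : ℂ) +
      ((1 - Real.cos (2 * Real.pi / ((N : ℝ) + 2)) : ℝ) : ℂ) * (Complex.I * (z.im / (1 - z.re) : ℝ)) *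
        (1 - z ^ (N + 2)) := by
  have h1 := closed_form (M := N + 2) (by omega) z
  rw [← aeval_FN_range hN] at h1
  have hz0 : z ≠ 0 := by
    intro h; rw [h] at hz; simp at hz
  have h1z : 1 - z ≠ 0 := by
    intro h'
    have : z = 1 := by linear_combination -h'
    rw [this] at h
    simp at h
  push_cast at h1
  rw [← Complex.ofReal_natCast N] at h1
  set c : ℝ := Real.cos (2 * Real.pi / ((N : ℝ) + 2)) with hc
  have hc' : Complex.cos (2 * (Real.pi : ℂ) / (((N : ℝ) : ℂ) + 2)) = (c : ℂ) := by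
    rw [hc]; push_cast; rfl
  rw [hc'] at h1
  have hq := circle_quad hz c
  rw [hq] at h1
  have hq2 := circle_quot' hz h
  set y : ℂ := (Complex.I * (z.im / (1 - z.re) : ℝ)) with hy
  rw [hq2] at h1
  have hcan : (2 * z ^ 2 * (1 - z)) ≠ 0 := by
    apply mul_ne_zero (mul_ne_zero two_ne_zero (pow_ne_zero 2 hz0)) h1z
  apply mul_left_cancel₀ hcan
  push_cast at h1 ⊢
  linear_combination h1


lemma z_ne_one_re {z : ℂ} (hz : ‖z‖ = 1) (hy : z.im ≠ 0) : z.re < 1 := by
  have h1 := circle_conj hz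
  have : 0 < z.im * z.im := mul_self_pos.mpr hy
  nlinarith

/-- imaginary part formula -/
lemma im_form {N : ℕ} (hN : 1 ≤ N) {z : ℂ} (hz : ‖z‖ = 1) (h : z.re < 1) :
    2 * (z.re - Real.cos (2 * Real.pi / ((N : ℝ) + 2))) ^ 2 * (((N : ℝ) + 2) * (aeval z (FN N)).im) =
      (1 - Real.cos (2 * Real.pi / ((N : ℝ) + 2))) * (z.im / (1 - z.re)) *
        (1 - (z ^ (N + 2)).re) := by
  have h1 := congrArg Complex.im (circle_form hN hz h)
  set c : ℝ := Real.cos (2 * Real.pi / ((N : ℝ) + 2)) with hc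
  have e1 : (2 * ((z.re - c : ℝ) : ℂ) ^ 2 * (((N : ℂ) + 2) * aeval z (FN N))) =
      ((2 * (z.re - c) ^ 2 * ((N : ℝ) + 2) : ℝ) : ℂ) * aeval z (FN N) := by
    push_cast; ring
  have e2 : ((N : ℂ) + 2) * ((z.re - c : ℝ) : ℂ) +
      ((1 - c : ℝ) : ℂ) * (Complex.I * (z.im / (1 - z.re) : ℝ)) * (1 - z ^ (N + 2)) =
      ((((N : ℝ) + 2) * (z.re - c) : ℝ) : ℂ) + (((1 - c) * (z.im / (1 - z.re)) : ℝ) : ℂ) *
        (Complex.I * (1 - z ^ (N + 2))) := by
    push_cast; ring
  rw [e1, e2, Complex.im_ofReal_mul, Complex.add_im, Complex.ofReal_im, Complex.im_ofReal_mul] at h1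
  have e3 : (Complex.I * (1 - z ^ (N + 2))).im = 1 - (z ^ (N + 2)).re := by simp
  rw [e3] at h1
  linear_combination h1

/-- real part formula -/
lemma re_form {N : ℕ} (hN : 1 ≤ N) {z : ℂ} (hz : ‖z‖ = 1) (h : z.re < 1) :
    2 * (z.re - Real.cos (2 * Real.pi / ((N : ℝ) + 2))) ^ 2 * (((N : ℝ) + 2) * (aeval z (FN N)).re) =
      ((N : ℝ) + 2) * (z.re - Real.cos (2 * Real.pi / ((N : ℝ) + 2))) +
      (1 - Real.cos (2 * Real.pi / ((N : ℝ) + 2))) * (z.im / (1 - z.re)) *
        (z ^ (N + 2)).im := by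
  have h1 := congrArg Complex.re (circle_form hN hz h)
  set c : ℝ := Real.cos (2 * Real.pi / ((N : ℝ) + 2)) with hc
  have e1 : (2 * ((z.re - c : ℝ) : ℂ) ^ 2 * (((N : ℂ) + 2) * aeval z (FN N))) =
      ((2 * (z.re - c) ^ 2 * ((N : ℝ) + 2) : ℝ) : ℂ) * aeval z (FN N) := by
    push_cast; ring
  have e2 : ((N : ℂ) + 2) * ((z.re - c : ℝ) : ℂ) +
      ((1 - c : ℝ) : ℂ) * (Complex.I * (z.im / (1 - z.re) : ℝ)) * (1 - z ^ (N + 2)) =
      ((((N : ℝ) + 2) * (z.re - c) : ℝ) : ℂ) + (((1 - c) * (z.im / (1 - z.re)) : ℝ) : ℂ) *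
        (Complex.I * (1 - z ^ (N + 2))) := by
    push_cast; ring
  rw [e1, e2, Complex.re_ofReal_mul, Complex.add_re, Complex.ofReal_re, Complex.re_ofReal_mul] at h1
  have e3 : (Complex.I * (1 - z ^ (N + 2))).re = (z ^ (N + 2)).im := by simp
  rw [e3] at h1
  linear_combination h1

lemma exp_pow_re (t : ℝ) (n : ℕ) : (Complex.exp (t * Complex.I) ^ n).re = Real.cos (n * t) := by
  rw [← Complex.exp_nat_mul]
  have : (n : ℂ) * (t * Complex.I) = ((n * t : ℝ) : ℂ) * Complex.I := by push_cast; ring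
  rw [this, Complex.exp_ofReal_mul_I_re]

lemma exp_pow_im (t : ℝ) (n : ℕ) : (Complex.exp (t * Complex.I) ^ n).im = Real.sin (n * t) := by
  rw [← Complex.exp_nat_mul]
  have : (n : ℂ) * (t * Complex.I) = ((n * t : ℝ) : ℂ) * Complex.I := by push_cast; ring
  rw [this, Complex.exp_ofReal_mul_I_im]

lemma FN_real {N : ℕ} {z : ℂ} (hz : z.im = 0) : (aeval z (FN N)).im = 0 := by
  have : z = algebraMap ℝ ℂ z.re := by
    apply Complex.ext <;> simp [hz]
  rw [this, aeval_algebraMap_apply]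
  simp

/-- H1 -/
lemma FN_H1 {N : ℕ} (hN : 1 ≤ N) : ∀ z : ℂ, ‖z‖ = 1 → 0 ≤ z.im → 0 ≤ (aeval z (FN N)).im := by
  have hM : (0 : ℝ) < (N : ℝ) + 2 := by positivity
  set c : ℝ := Real.cos (2 * Real.pi / ((N : ℝ) + 2)) with hc
  have key : ∀ z : ℂ, ‖z‖ = 1 → 0 ≤ z.im → z.re ≠ c → 0 ≤ (aeval z (FN N)).im := by
    intro z hz hy hne
    rcases hy.eq_or_lt with h0 | h0
    · rw [FN_real h0.symm]
    · have hlt := z_ne_one_re hz h0.ne'
      have h := im_form hN hz hlt
      rw [← hc] at h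
      have h2 : 0 ≤ (1 - c) * (z.im / (1 - z.re)) * (1 - (z ^ (N + 2)).re) := by
        apply mul_nonneg (mul_nonneg _ _) _
        · linarith [Real.cos_le_one (2 * Real.pi / ((N : ℝ) + 2))]
        · apply div_nonneg hy; linarith
        · have : (z ^ (N + 2)).re ≤ ‖z ^ (N + 2)‖ := Complex.re_le_norm _
          rw [norm_pow, hz, one_pow] at this
          linarith
      rw [← h] at h2
      have h3 : 0 < (z.re - c) ^ 2 := by
        have : z.re - c ≠ 0 := sub_ne_zero.mpr hne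
        positivity
      have h4 : 0 ≤ (2 * (z.re - c) ^ 2 * ((N : ℝ) + 2)) * (aeval z (FN N)).im := by
        calc 0 ≤ _ := h2
          _ = _ := by ring
      exact nonneg_of_mul_nonneg_right h4 (by positivity)
  intro z hz hy
  by_cases hne : z.re = c
  · rcases hy.eq_or_lt with h0 | h0
    · rw [FN_real h0.symm]
    · -- limit argument along the circle
      have harg : z = Complex.exp (z.arg * Complex.I) := by
        have := Complex.norm_mul_exp_arg_mul_I z
        rw [hz] at this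
        simpa using this.symm
      set t0 := z.arg with ht0
      have ht1 : 0 < t0 := by
        have h5 : 0 ≤ t0 := Complex.arg_nonneg_iff.mpr hy
        rcases h5.eq_or_lt with h6 | h6
        · rw [← h6] at harg
          simp at harg
          rw [harg] at h0
          simp at h0
        · exact h6
      have ht2 : t0 < Real.pi := by
        have h5 : t0 ≤ Real.pi := Complex.arg_le_pi z
        rcases h5.eq_or_lt with h6 | h6
        · rw [h6, Complex.exp_pi_mul_I] at harg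
          rw [harg] at h0
          simp at h0
        · exact h6
      set g : ℝ → ℝ := fun t => (aeval (Complex.exp (t * Complex.I)) (FN N)).im with hg
      have hgc : Continuous g := by
        have h1 : Continuous (fun t : ℝ => Complex.exp (t * Complex.I)) := by fun_prop
        exact Complex.continuous_im.comp ((FN N).continuous_aeval.comp h1)
      have hgt : g t0 = (aeval z (FN N)).im := by rw [hg]; simp only; rw [← harg]
      rw [← hgt]
      have ht : Filter.Tendsto g (nhdsWithin t0 (Set.Ioi t0)) (nhds (g t0)) :=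
        (hgc.tendsto t0).mono_left nhdsWithin_le_nhds
      apply ge_of_tendsto ht
      have : Set.Ioo t0 Real.pi ∈ nhdsWithin t0 (Set.Ioi t0) := Ioo_mem_nhdsGT ht2
      filter_upwards [this] with t ht
      apply key _ (Complex.norm_exp_ofReal_mul_I t)
      · rw [Complex.exp_ofReal_mul_I_im]
        exact Real.sin_nonneg_of_nonneg_of_le_pi (by linarith [ht.1]) ht.2.le
      · rw [Complex.exp_ofReal_mul_I_re, ← hne]
        have h7 : z.re = Real.cos t0 := by
          rw [harg, Complex.exp_ofReal_mul_I_re]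
        rw [h7]
        exact (Real.cos_lt_cos_of_nonneg_of_le_pi ht1.le ht.2.le ht.1).ne
  · exact key z hz hy hne

/-- cosine polynomial of `F_N` in the variable `x = cos t` -/
noncomputable def Cp (N : ℕ) : ℝ[X] := ∑ j ∈ Icc 1 N, C (coef N j) * Chebyshev.T ℝ (j : ℤ)

lemma Cp_eval_cos (N : ℕ) (t : ℝ) :
    (Cp N).eval (Real.cos t) = (aeval (Complex.exp (t * Complex.I)) (FN N)).re := by
  rw [aeval_FN]
  unfold Cp
  rw [eval_finsetSum, Complex.re_sum]
  apply sum_congr rfl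
  intro j _
  rw [Complex.re_ofReal_mul, exp_pow_re]
  have := Chebyshev.T_real_cos t (j : ℤ)
  push_cast at this
  simp [this]

lemma Cp_deriv_eval_cos (N : ℕ) (t : ℝ) :
    Real.sin t * (derivative (Cp N)).eval (Real.cos t) =
      (Complex.exp (t * Complex.I) * aeval (Complex.exp (t * Complex.I)) (derivative (FN N))).im := by
  have h1 : Complex.exp (t * Complex.I) * aeval (Complex.exp (t * Complex.I)) (derivative (FN N)) =
      ∑ j ∈ Icc 1 N, ((coef N j * j : ℝ) : ℂ) * Complex.exp (t * Complex.I) ^ j := by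
    unfold FN
    rw [derivative_sum, map_sum, mul_sum]
    apply sum_congr rfl
    intro j hj
    have hj1 : 1 ≤ j := (mem_Icc.mp hj).1
    obtain ⟨k, rfl⟩ : ∃ k, j = k + 1 := ⟨j - 1, by omega⟩
    simp
    ring
  rw [h1, Complex.im_sum]
  unfold Cp
  rw [derivative_sum, eval_finsetSum, mul_sum]
  apply sum_congr rfl
  intro j _
  rw [Complex.im_ofReal_mul, exp_pow_im]
  have := Chebyshev.U_real_cos t ((j : ℤ) - 1)
  push_cast at this
  rw [sub_add_cancel] at this
  rw [derivative_C_mul, Chebyshev.T_derivative_eq_U, eval_C_mul, eval_mul]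
  simp only [Int.cast_natCast, eval_natCast]
  linear_combination (coef N j * j) * this

/-- the polynomial identity for `Cp` -/
lemma Cp_identity {N : ℕ} (hN : 1 ≤ N) :
    C (2 * ((N : ℝ) + 2)) * (X - C (Real.cos (2 * Real.pi / ((N : ℝ) + 2)))) ^ 2 * Cp N =
      C ((N : ℝ) + 2) * (X - C (Real.cos (2 * Real.pi / ((N : ℝ) + 2)))) +
      C (1 - Real.cos (2 * Real.pi / ((N : ℝ) + 2))) * ((X + 1) * Chebyshev.U ℝ ((N + 1 : ℕ) : ℤ)) := by
  apply eq_of_infinite_eval_eq
  apply Set.Infinite.mono _ (Set.Ioo_infinite (show (-1 : ℝ) < 1 by norm_num))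
  intro x hx
  simp only [Set.mem_ofPred_eq]
  set t := Real.arccos x with ht
  have hcos : Real.cos t = x := Real.cos_arccos hx.1.le hx.2.le
  have hsin : 0 < Real.sin t := by
    apply Real.sin_pos_of_pos_of_lt_pi
    · rw [ht, Real.arccos_pos]; exact hx.2
    · refine lt_of_le_of_ne (Real.arccos_le_pi x) (fun h' => ?_)
      rw [Real.arccos_eq_pi] at h'
      linarith [hx.1]
  have hz := Complex.norm_exp_ofReal_mul_I t
  have hre : (Complex.exp (t * Complex.I)).re = x := by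
    rw [Complex.exp_ofReal_mul_I_re, hcos]
  have him : (Complex.exp (t * Complex.I)).im = Real.sin t := by
    rw [Complex.exp_ofReal_mul_I_im]
  have h := re_form hN hz (by rw [hre]; exact hx.2)
  rw [hre, him, exp_pow_im, ← Cp_eval_cos, hcos] at h
  set c : ℝ := Real.cos (2 * Real.pi / ((N : ℝ) + 2)) with hc
  have hU := Chebyshev.U_real_cos t ((N + 1 : ℕ) : ℤ)
  push_cast at hU
  have e : ((N : ℝ) + 1 + 1) = ((N : ℝ) + 2) := by ring
  rw [hcos, e] at hU
  push_cast at h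
  rw [← hU] at h
  have hs2 : Real.sin t ^ 2 = 1 - x ^ 2 := by rw [← hcos, Real.sin_sq]
  have hx1 : 1 - x ≠ 0 := by linarith [hx.2]
  have e2 : (1 - c) * (Real.sin t / (1 - x)) * ((Chebyshev.U ℝ ((N : ℤ) + 1)).eval x * Real.sin t) =
      (1 - c) * ((x + 1) * (Chebyshev.U ℝ ((N : ℤ) + 1)).eval x) := by
    have : (1 - c) * (Real.sin t / (1 - x)) * ((Chebyshev.U ℝ ((N : ℤ) + 1)).eval x * Real.sin t) =
      (1 - c) * (Chebyshev.U ℝ ((N : ℤ) + 1)).eval x * (Real.sin t ^ 2 / (1 - x)) := by ring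
    rw [this, hs2]
    field_simp
    ring
  rw [e2] at h
  push_cast
  simp only [eval_mul, eval_add, eval_pow, eval_sub, eval_X, eval_C, eval_one]
  linear_combination h

end Pool.Agent.Helper766
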