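import Mathlib
import Pool.Agent.Helper766.Extremal

set_option autoImplicit false

open Polynomial Finset

namespace Pool.Agent.Helper766

lemma xk_one_eq (N : ℕ) : xk (N + 1) 1 = Real.cos (2 * Real.pi / ((N : ℝ) + 2)) := by
  rw [xk1_eq]
  congr 1
  push_cast
  ring

/-- `2 (X - c) Cp = 1 + V` -/
lemma Cp_V {N : ℕ} (hN : 3 ≤ N) :
    2 * (X - C (xk (N + 1) 1)) * Cp N = 1 + Vp (N + 1) := by
  have h1 := Cp_identity (N := N) (by omega)
  have h2 := V_mul (n := N + 1) (by omega)
  rw [← xk_one_eq] at h1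
  set c := xk (N + 1) 1 with hc
  have hM : ((N : ℝ) + 2) ≠ 0 := by positivity
  have hne : (C ((N : ℝ) + 2) * (X - C c)) ≠ 0 := by
    apply mul_ne_zero
    · exact C_ne_zero.mpr hM
    · exact X_sub_C_ne_zero c
  apply mul_left_cancel₀ hne
  have e1 : C (1 - c) = C ((N : ℝ) + 2) * C ((1 - c) / (((N + 1 : ℕ) : ℝ) + 1)) := by
    rw [← C_mul]
    congr 1
    push_cast
    have : ((N : ℝ) + 1 + 1) ≠ 0 := by positivity
    field_simp
    ring
  rw [e1] at h1
  have e2 : C (2 * ((N : ℝ) + 2)) = 2 * C ((N : ℝ) + 2) := by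
    rw [C_mul]; rfl
  rw [e2] at h1
  linear_combination h1 - C ((N : ℝ) + 2) * h2

lemma Psi_eq {N : ℕ} (hN : 3 ≤ N) :
    (X - C (xk (N + 1) 1)) * derivative (Vp (N + 1)) - (1 + Vp (N + 1)) =
      2 * (X - C (xk (N + 1) 1)) ^ 2 * derivative (Cp N) := by
  have h := Cp_V hN
  have hd := congrArg derivative h
  simp at hd
  linear_combination (-(X - C (xk (N + 1) 1))) * hd + h

lemma Cp_deriv_c {N : ℕ} (hN : 3 ≤ N) :
    0 < (derivative (Cp N)).eval (xk (N + 1) 1) := by
  have h := Cp_V hN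
  have hd := congrArg (fun p => (derivative (derivative p)).eval (xk (N + 1) 1)) h
  simp at hd
  have hV := V_second_at_c (n := N + 1) (by omega)
  rw [← hd] at hV
  linarith

/-- H2 -/
lemma FN_H2 {N : ℕ} (hN : 3 ≤ N) : ∃ c0, -1 < c0 ∧ c0 < 1 ∧
    ∀ z : ℂ, ‖z‖ = 1 → 0 ≤ z.im → 0 ≤ (z.re - c0) * (z * aeval z (derivative (FN N))).im := by
  obtain ⟨c0, h1, h2, h3⟩ := exists_c0 (n := N + 1) (by omega)
  refine ⟨c0, ?_, ?_, ?_⟩
  · exact lt_of_lt_of_le (neg_one_lt_xk (by omega)) h1
  · exact lt_of_le_of_lt h2 (xk_lt_one (by omega))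
  · intro z hz hy
    have harg : z = Complex.exp (z.arg * Complex.I) := by
      have := Complex.norm_mul_exp_arg_mul_I z
      rw [hz] at this
      simpa using this.symm
    set t := z.arg with ht
    have hre : z.re = Real.cos t := by rw [harg, Complex.exp_ofReal_mul_I_re]
    have him : z.im = Real.sin t := by rw [harg, Complex.exp_ofReal_mul_I_im]
    rw [hre]
    rw [harg, ← Cp_deriv_eval_cos]
    rw [him] at hy
    have hC : 0 ≤ (Real.cos t - c0) * (derivative (Cp N)).eval (Real.cos t) := by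
      by_cases hne : Real.cos t = xk (N + 1) 1
      · rw [hne]
        apply mul_nonneg (by linarith) (Cp_deriv_c hN).le
      · have h4 := h3 (Real.cos t) (Real.neg_one_le_cos t) (Real.cos_le_one t)
        rw [Psi_eq hN] at h4
        simp only [eval_mul, eval_pow, eval_sub, eval_X, eval_C, eval_ofNat] at h4
        have h5 : 0 < (Real.cos t - xk (N + 1) 1) ^ 2 := by
          have := sub_ne_zero.mpr hne
          positivity
        have h6 : 0 ≤ (2 * (Real.cos t - xk (N + 1) 1) ^ 2) *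
            ((Real.cos t - c0) * (derivative (Cp N)).eval (Real.cos t)) := by
          calc 0 ≤ _ := h4
            _ = _ := by ring
        exact nonneg_of_mul_nonneg_right h6 (by positivity)
    calc 0 ≤ Real.sin t * ((Real.cos t - c0) * (derivative (Cp N)).eval (Real.cos t)) :=
          mul_nonneg hy hC
      _ = _ := by ring

lemma coef_one {N : ℕ} (hN : 1 ≤ N) : coef N 1 = 1 := by
  rw [coef_eq hN, bc_one (by omega)]
  push_cast
  have : ((N : ℝ) + 2) ≠ 0 := by positivity
  field_simp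

lemma FN_deriv_zero {N : ℕ} (hN : 1 ≤ N) : (derivative (FN N)).eval 0 = 1 := by
  unfold FN
  rw [derivative_sum, eval_finsetSum]
  rw [Finset.sum_eq_single 1]
  · simp [coef_one hN]
  · intro j hj hne
    have : 1 ≤ j := (mem_Icc.mp hj).1
    obtain ⟨k, rfl⟩ : ∃ k, j = k + 2 := ⟨j - 2, by omega⟩
    simp
  · intro h
    simp at h
    omega

theorem FN_injOn_ge {N : ℕ} (hN : 3 ≤ N) :
    Set.InjOn (fun z : ℂ => aeval z (FN N)) (Metric.ball 0 1) := by
  obtain ⟨c0, h1, h2, h3⟩ := FN_H2 hN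
  apply injOn_ball (FN N) c0 h1 h2 _ (FN_H1 (by omega)) h3
  rw [FN_deriv_zero (by omega)]
  norm_num

lemma coef_two_two : coef 2 2 = 1 / 2 := by
  rw [coef_eq (by norm_num)]
  unfold bc
  have h1 : 2 * Real.pi / ((2 + 2 : ℕ) : ℝ) = Real.pi / 2 := by push_cast; ring
  rw [h1]
  have h2 : ((2 : ℕ) : ℝ) * (Real.pi / 2) = Real.pi := by push_cast; ring
  rw [h2, Real.cos_pi, Real.sin_pi, Real.cos_pi_div_two]
  norm_num

/-- `F_N` is univalent in the unit disc for every `N ≥ 1`. -/
theorem FN_injOn {N : ℕ} (hN : 1 ≤ N) :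
    Set.InjOn (fun z : ℂ => aeval z (FN N)) (Metric.ball 0 1) := by
  rcases lt_or_ge N 3 with h | h
  · interval_cases N
    · intro z1 _ z2 _ h
      simp only [aeval_FN] at h
      simp [coef_one] at h
      exact h
    · intro z1 h1 z2 h2 h
      simp only [aeval_FN] at h
      have e : Icc 1 2 = {1, 2} := by decide
      rw [e] at h
      simp [coef_one, coef_two_two] at h
      simp only [mem_ball_zero_iff] at h1 h2
      have h3 : (z1 - z2) * (1 + (z1 + z2) / 2) = 0 := by linear_combination h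
      rcases mul_eq_zero.mp h3 with h4 | h4
      · exact sub_eq_zero.mp h4
      · exfalso
        have h5 : z1 + z2 = -2 := by linear_combination 2 * h4
        have h6 : ‖z1 + z2‖ ≤ ‖z1‖ + ‖z2‖ := norm_add_le _ _
        rw [h5] at h6
        simp at h6
        linarith
  · exact FN_injOn_ge h

end Pool.Agent.Helper766
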