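import Mathlib
import Pool.Agent.Helper766.Quadrature
import Pool.Agent.Helper766.Univalence

set_option autoImplicit false

open Polynomial Finset

namespace Pool.Agent.Helper766

lemma aeval_real_im (p : ℝ[X]) {w : ℂ} (hw : w.im = 0) : (aeval w p).im = 0 := by
  have : w = algebraMap ℝ ℂ w.re := by
    apply Complex.ext <;> simp [hw]
  rw [this, aeval_algebraMap_apply]
  simp

lemma aeval_ofReal' (p : ℝ[X]) (x : ℝ) : aeval (x : ℂ) p = ((p.eval x : ℝ) : ℂ) := by
  have : (x : ℂ) = algebraMap ℝ ℂ x := by simp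
  rw [this, aeval_algebraMap_apply]
  simp

/-- a univalent real polynomial with positive derivative at `0` is typically real. -/
lemma typically_real (p : ℝ[X]) (h1 : (derivative p).eval 0 = 1)
    (hinj : Set.InjOn (fun z : ℂ => aeval z p) (Metric.ball 0 1)) {z : ℂ} (hz : ‖z‖ < 1)
    (hzi : 0 < z.im) : 0 < (aeval z p).im := by
  set U : Set ℂ := Metric.ball 0 1 ∩ {w : ℂ | 0 < w.im} with hU
  have hUc : Convex ℝ U := (convex_ball (0 : ℂ) 1).inter (convex_halfSpace_im_gt 0)
  have hUp : IsPreconnected U := hUc.isPreconnected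
  have hcont : ContinuousOn (fun z : ℂ => (aeval z p).im) U :=
    (Complex.continuous_im.comp p.continuous_aeval).continuousOn
  have hne : ∀ w ∈ U, (aeval w p).im ≠ 0 := by
    intro w hw h0
    have h2 : aeval (starRingEnd ℂ w) p = aeval w p := by
      rw [aeval_conj]
      exact Complex.conj_eq_iff_im.mpr h0
    have hw1 : w ∈ Metric.ball (0 : ℂ) 1 := hw.1
    have hw2 : starRingEnd ℂ w ∈ Metric.ball (0 : ℂ) 1 := by
      simpa using hw1
    have h3 := hinj hw2 hw1 h2
    have h4 := Complex.conj_eq_iff_im.mp h3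
    have h5 : 0 < w.im := hw.2
    linarith
  -- a point with positive imaginary part
  obtain ⟨y, hy0, hy1, hypos⟩ : ∃ y : ℝ, 0 < y ∧ y < 1 ∧ 0 < (aeval ((y : ℂ) * Complex.I) p).im := by
    set g : ℝ → ℝ := fun y => (aeval ((y : ℂ) * Complex.I) p).im with hg
    have hl : HasDerivAt (fun y : ℝ => (y : ℂ) * Complex.I) Complex.I 0 := by
      simpa using (hasDerivAt_id (0 : ℝ)).ofReal_comp.mul_const Complex.I
    have h2 := (p.hasDerivAt_aeval (((0 : ℝ) : ℂ) * Complex.I)).comp (0 : ℝ) hl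
    have h3 : HasDerivAt g ((aeval (((0 : ℝ) : ℂ) * Complex.I) (derivative p) * Complex.I).im) 0 :=
      (Complex.imCLM.hasFDerivAt).comp_hasDerivAt (0 : ℝ) h2
    have h4 : (aeval (((0 : ℝ) : ℂ) * Complex.I) (derivative p) * Complex.I).im = 1 := by
      have : ((0 : ℝ) : ℂ) * Complex.I = ((0 : ℝ) : ℂ) := by simp
      rw [this, aeval_ofReal', h1]
      simp
    rw [h4] at h3
    have hg0 : g 0 = 0 := by
      rw [hg]
      simp only
      apply aeval_real_im
      simp
    have hslope := (hasDerivAt_iff_tendsto_slope.mp h3)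
    have hslope' : Filter.Tendsto (slope g 0) (nhdsWithin 0 (Set.Ioi 0)) (nhds 1) := by
      apply hslope.mono_left
      apply nhdsWithin_mono
      intro x hx
      exact (ne_of_gt hx)
    have h5 : ∀ᶠ y in nhdsWithin (0 : ℝ) (Set.Ioi 0), 0 < slope g 0 y :=
      hslope'.eventually (lt_mem_nhds one_pos)
    have h6 : ∀ᶠ y in nhdsWithin (0 : ℝ) (Set.Ioi 0), y ∈ Set.Ioo (0 : ℝ) 1 :=
      Ioo_mem_nhdsGT one_pos
    obtain ⟨y, hy⟩ := (h5.and h6).exists
    refine ⟨y, hy.2.1, hy.2.2, ?_⟩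
    have h7 := hy.1
    rw [slope_def_field, hg0, sub_zero, sub_zero] at h7
    exact (div_pos_iff_of_pos_right hy.2.1).mp h7
  have hyU : (y : ℂ) * Complex.I ∈ U := by
    refine ⟨?_, ?_⟩
    · simp [abs_of_pos hy0, hy1]
    · change 0 < ((y : ℂ) * Complex.I).im
      simpa using hy0
  have hzU : z ∈ U := ⟨by simpa using hz, hzi⟩
  by_contra hcon
  push Not at hcon
  have h8 := hUp.intermediate_value hzU hyU hcont
  have h9 : (0 : ℝ) ∈ (fun z : ℂ => (aeval z p).im) '' U := h8 ⟨hcon, hypos.le⟩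
  obtain ⟨w, hw, hw0⟩ := h9
  exact hne w hw hw0

/-- nonnegative imaginary part on the upper half circle -/
lemma im_circle_nonneg (p : ℝ[X]) (h1 : (derivative p).eval 0 = 1)
    (hinj : Set.InjOn (fun z : ℂ => aeval z p) (Metric.ball 0 1)) {z : ℂ} (hz : ‖z‖ = 1)
    (hzi : 0 ≤ z.im) : 0 ≤ (aeval z p).im := by
  rcases hzi.eq_or_lt with h0 | h0
  · rw [aeval_real_im p h0.symm]
  · set g : ℝ → ℝ := fun r => (aeval ((r : ℂ) * z) p).im with hg
    have hgc : Continuous g := by
      have h1 : Continuous (fun r : ℝ => (r : ℂ) * z) := by fun_prop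
      exact Complex.continuous_im.comp (p.continuous_aeval.comp h1)
    have hg1 : g 1 = (aeval z p).im := by rw [hg]; simp
    rw [← hg1]
    have ht : Filter.Tendsto g (nhdsWithin 1 (Set.Iio 1)) (nhds (g 1)) :=
      (hgc.tendsto 1).mono_left nhdsWithin_le_nhds
    apply ge_of_tendsto ht
    have : Set.Ioo (0 : ℝ) 1 ∈ nhdsWithin (1 : ℝ) (Set.Iio 1) := Ioo_mem_nhdsLT one_pos
    filter_upwards [this] with r hr
    apply le_of_lt
    apply typically_real p h1 hinj
    · rw [norm_mul, hz, mul_one, Complex.norm_real, Real.norm_eq_abs, abs_of_pos hr.1]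
      exact hr.2
    · rw [Complex.im_ofReal_mul]
      exact mul_pos hr.1 h0

/-- the quotient `S(t)/sin t` as a polynomial in `cos t` -/
noncomputable def qpoly (p : ℝ[X]) (N : ℕ) : ℝ[X] :=
  ∑ j ∈ range N, C (p.coeff (j + 1)) * Chebyshev.U ℝ (j : ℤ)

lemma poly_sum (p : ℝ[X]) {N : ℕ} (hdeg : p.natDegree ≤ N) (h0 : p.coeff 0 = 0) :
    p = ∑ j ∈ range N, C (p.coeff (j + 1)) * X ^ (j + 1) := by
  conv_lhs => rw [p.as_sum_range_C_mul_X_pow' (n := N + 1) (by omega)]
  rw [sum_range_succ', h0]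
  simp

lemma qpoly_sin (p : ℝ[X]) {N : ℕ} (hdeg : p.natDegree ≤ N) (h0 : p.coeff 0 = 0) (t : ℝ) :
    Real.sin t * (qpoly p N).eval (Real.cos t) =
      (aeval (Complex.exp (t * Complex.I)) p).im := by
  conv_rhs => rw [poly_sum p hdeg h0]
  unfold qpoly
  rw [eval_finsetSum, mul_sum, map_sum, Complex.im_sum]
  apply sum_congr rfl
  intro j _
  rw [map_mul, aeval_C, map_pow, aeval_X]
  have : (algebraMap ℝ ℂ) (p.coeff (j + 1)) = ((p.coeff (j + 1) : ℝ) : ℂ) := rfl
  rw [this, Complex.im_ofReal_mul, exp_pow_im, eval_C_mul]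
  have hU := Chebyshev.U_real_cos t (j : ℤ)
  push_cast at hU
  push_cast
  linear_combination (p.coeff (j + 1)) * hU

lemma qpoly_nonneg (p : ℝ[X]) {N : ℕ} (hdeg : p.natDegree ≤ N) (h0 : p.coeff 0 = 0)
    (hS : ∀ z : ℂ, ‖z‖ = 1 → 0 ≤ z.im → 0 ≤ (aeval z p).im) {x : ℝ} (hx : x ∈ Set.Icc (-1 : ℝ) 1) :
    0 ≤ (qpoly p N).eval x := by
  have hopen : ∀ x ∈ Set.Ioo (-1 : ℝ) 1, 0 ≤ (qpoly p N).eval x := by
    intro x hx
    set t := Real.arccos x with ht
    have hcos : Real.cos t = x := Real.cos_arccos hx.1.le hx.2.le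
    have hsin : 0 < Real.sin t := by
      apply Real.sin_pos_of_pos_of_lt_pi
      · rw [ht, Real.arccos_pos]; exact hx.2
      · refine lt_of_le_of_ne (Real.arccos_le_pi x) (fun h' => ?_)
        rw [Real.arccos_eq_pi] at h'
        linarith [hx.1]
    have h := qpoly_sin p hdeg h0 t
    rw [hcos] at h
    have h2 := hS (Complex.exp (t * Complex.I)) (Complex.norm_exp_ofReal_mul_I t)
      (by rw [Complex.exp_ofReal_mul_I_im]; exact hsin.le)
    rw [← h] at h2
    exact nonneg_of_mul_nonneg_right h2 hsin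
  have hclosed : IsClosed {x : ℝ | 0 ≤ (qpoly p N).eval x} :=
    isClosed_le continuous_const (qpoly p N).continuous
  have : closure (Set.Ioo (-1 : ℝ) 1) ⊆ {x : ℝ | 0 ≤ (qpoly p N).eval x} :=
    closure_minimal hopen hclosed
  rw [closure_Ioo (by norm_num)] at this
  exact this hx

/-- nodes other than `1` are at most `cos (2π/M)` -/
lemma nd_le {M k : ℕ} (hk : 0 < k) (hkM : k < M) : nd M k ≤ Real.cos (2 * Real.pi / M) := by
  have hM : (0 : ℝ) < M := by exact_mod_cast (by omega : 0 < M)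
  unfold nd
  have hk' : (1 : ℝ) ≤ k := by exact_mod_cast hk
  have hkM' : (k : ℝ) + 1 ≤ M := by exact_mod_cast hkM
  rcases le_or_gt (2 * Real.pi * k / M) Real.pi with h | h
  · apply Real.cos_le_cos_of_nonneg_of_le_pi (by positivity) h
    apply div_le_div_of_nonneg_right _ hM.le
    nlinarith [Real.pi_pos]
  · have e : Real.cos (2 * Real.pi * k / M) = Real.cos (2 * Real.pi - 2 * Real.pi * k / M) := by
      rw [Real.cos_two_pi_sub]
    rw [e]
    apply Real.cos_le_cos_of_nonneg_of_le_pi (by positivity) (by linarith)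
    rw [le_sub_iff_add_le, ← add_div, div_le_iff₀ hM]
    nlinarith [Real.pi_pos]

/-- **Sharp bound at `-1`**. -/
lemma neg_eval_neg_one_ge (p : ℝ[X]) {N : ℕ} (hN : 1 ≤ N) (hdeg : p.natDegree ≤ N)
    (h0 : p.coeff 0 = 0) (h1 : p.coeff 1 = 1)
    (hS : ∀ z : ℂ, ‖z‖ = 1 → 0 ≤ z.im → 0 ≤ (aeval z p).im) :
    1 / (4 * Real.cos (Real.pi / ((N : ℝ) + 2)) ^ 2) ≤ -(p.eval (-1)) := by
  set M := N + 2 with hM
  have hMR : (0 : ℝ) < (N : ℝ) + 2 := by positivity
  have hMc : (M : ℝ) = (N : ℝ) + 2 := by rw [hM]; push_cast; ring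
  -- value at -1
  have hA : ∑ k ∈ range M, (qpoly p N).eval (nd M k) * (1 - nd M k) = M * (-(p.eval (-1))) := by
    unfold qpoly
    simp only [eval_finsetSum, eval_C_mul, sum_mul]
    rw [sum_comm]
    have e1 : ∀ j ∈ range N, ∑ k ∈ range M,
        p.coeff (j + 1) * (Chebyshev.U ℝ (j : ℤ)).eval (nd M k) * (1 - nd M k) =
        p.coeff (j + 1) * ((-1) ^ j * M) := by
      intro j hj
      rw [mem_range] at hj
      rw [← sum_U_nodes (M := M) (by omega) j (by omega), mul_sum]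
      apply sum_congr rfl
      intro k _
      ring
    rw [sum_congr rfl e1]
    have e2 : p.eval (-1) = ∑ j ∈ range N, p.coeff (j + 1) * (-1) ^ (j + 1) := by
      conv_lhs => rw [poly_sum p hdeg h0]
      rw [eval_finsetSum]
      apply sum_congr rfl
      intro j _
      simp
    rw [e2, ← sum_neg_distrib, mul_sum]
    apply sum_congr rfl
    intro j _
    ring
  have hB : ∑ k ∈ range M, (qpoly p N).eval (nd M k) * (1 - nd M k ^ 2) = (M : ℝ) / 2 := by
    unfold qpoly
    simp only [eval_finsetSum, eval_C_mul, sum_mul]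
    rw [sum_comm]
    have e1 : ∀ j ∈ range N, ∑ k ∈ range M,
        p.coeff (j + 1) * (Chebyshev.U ℝ (j : ℤ)).eval (nd M k) * (1 - nd M k ^ 2) =
        p.coeff (j + 1) * (if j = 0 then (M : ℝ) / 2 else 0) := by
      intro j hj
      rw [mem_range] at hj
      rw [← sum_U_sq_nodes (M := M) j (by omega), mul_sum]
      apply sum_congr rfl
      intro k _
      ring
    rw [sum_congr rfl e1]
    rw [sum_eq_single 0]
    · simp [h1]
    · intro j _ hj
      simp [hj]
    · intro h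
      simp at h
      omega
  have hle : ∑ k ∈ range M, (qpoly p N).eval (nd M k) * (1 - nd M k ^ 2) ≤
      (1 + Real.cos (2 * Real.pi / M)) *
        ∑ k ∈ range M, (qpoly p N).eval (nd M k) * (1 - nd M k) := by
    rw [mul_sum]
    apply sum_le_sum
    intro k hk
    rw [mem_range] at hk
    have hx : nd M k ∈ Set.Icc (-1 : ℝ) 1 := ⟨Real.neg_one_le_cos _, Real.cos_le_one _⟩
    have hq := qpoly_nonneg p hdeg h0 hS hx
    rcases Nat.eq_zero_or_pos k with h | h
    · subst h
      have : nd M 0 = 1 := by unfold nd; simp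
      rw [this]
      simp
    · have h2 := nd_le h hk
      have h3 : 0 ≤ (qpoly p N).eval (nd M k) * (1 - nd M k) := mul_nonneg hq (by linarith [hx.2])
      calc (qpoly p N).eval (nd M k) * (1 - nd M k ^ 2) =
          (1 + nd M k) * ((qpoly p N).eval (nd M k) * (1 - nd M k)) := by ring
        _ ≤ _ := by
          apply mul_le_mul_of_nonneg_right _ h3
          linarith
  rw [hA, hB, hMc] at hle
  have hcos : 1 + Real.cos (2 * Real.pi / ((N : ℝ) + 2)) =
      2 * Real.cos (Real.pi / ((N : ℝ) + 2)) ^ 2 := by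
    have : 2 * Real.pi / ((N : ℝ) + 2) = 2 * (Real.pi / ((N : ℝ) + 2)) := by ring
    rw [this, Real.cos_two_mul]
    ring
  rw [hcos] at hle
  have hcpos : 0 < Real.cos (Real.pi / ((N : ℝ) + 2)) := by
    apply Real.cos_pos_of_mem_Ioo
    have hN1 : (1 : ℝ) ≤ N := by exact_mod_cast hN
    constructor
    · have : 0 < Real.pi / ((N : ℝ) + 2) := by positivity
      linarith [Real.pi_pos]
    · rw [div_lt_div_iff₀ hMR (by norm_num)]
      nlinarith [Real.pi_pos]
  rw [div_le_iff₀ (by positivity)]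
  have h5 : ((N : ℝ) + 2) * 1 ≤ ((N : ℝ) + 2) *
      (-(p.eval (-1)) * (4 * Real.cos (Real.pi / ((N : ℝ) + 2)) ^ 2)) := by
    nlinarith
  exact le_of_mul_le_mul_left h5 hMR

/-- `F_N(-1) = -1/(4 cos²(π/(N+2)))` -/
lemma FN_eval_neg_one {N : ℕ} (hN : 1 ≤ N) :
    (FN N).eval (-1) = -(1 / (4 * Real.cos (Real.pi / ((N : ℝ) + 2)) ^ 2)) := by
  have hMR : (0 : ℝ) < (N : ℝ) + 2 := by positivity
  have h := re_form hN (z := -1) (by simp) (by norm_num)
  have h2 : aeval (-1 : ℂ) (FN N) = (((FN N).eval (-1) : ℝ) : ℂ) := by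
    have := aeval_ofReal' (FN N) (-1)
    simpa using this
  rw [h2] at h
  simp only [Complex.neg_re, Complex.one_re, Complex.ofReal_re, Complex.neg_im, Complex.one_im,
    neg_zero, zero_div, mul_zero, zero_mul, add_zero] at h
  set c := Real.cos (2 * Real.pi / ((N : ℝ) + 2)) with hc
  have hcos : 1 + c = 2 * Real.cos (Real.pi / ((N : ℝ) + 2)) ^ 2 := by
    have : 2 * Real.pi / ((N : ℝ) + 2) = 2 * (Real.pi / ((N : ℝ) + 2)) := by ring
    rw [hc, this, Real.cos_two_mul]
    ring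
  have hcpos : 0 < Real.cos (Real.pi / ((N : ℝ) + 2)) := by
    apply Real.cos_pos_of_mem_Ioo
    have hN1 : (1 : ℝ) ≤ N := by exact_mod_cast hN
    constructor
    · have : 0 < Real.pi / ((N : ℝ) + 2) := by positivity
      linarith [Real.pi_pos]
    · rw [div_lt_div_iff₀ hMR (by norm_num)]
      nlinarith [Real.pi_pos]
  have h1c : 0 < 1 + c := by rw [hcos]; positivity
  have h3 : (FN N).eval (-1) * (2 * (1 + c)) = -1 := by
    have h4 : ((N : ℝ) + 2) * (1 + c) * ((FN N).eval (-1) * (2 * (1 + c))) =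
        ((N : ℝ) + 2) * (1 + c) * (-1) := by linear_combination h
    exact mul_left_cancel₀ (by positivity) h4
  rw [← neg_div, eq_div_iff (by positivity)]
  have : 4 * Real.cos (Real.pi / ((N : ℝ) + 2)) ^ 2 = 2 * (1 + c) := by rw [hcos]; ring
  rw [this, h3]

end Pool.Agent.Helper766
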