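import Mathlib
import Pool.Agent.Helper766.RealAxis

set_option autoImplicit false

open Polynomial Finset

namespace Pool.Agent.Helper766

/-- distance from the origin to the line `1 + λ e^{iφ}` -/
lemma norm_line_ge (l φ : ℝ) : |Real.sin φ| ≤ ‖1 + (l : ℂ) * Complex.exp (φ * Complex.I)‖ := by
  have h : ‖1 + (l : ℂ) * Complex.exp (φ * Complex.I)‖ =
      ‖Complex.exp (-(φ * Complex.I)) + (l : ℂ)‖ := by
    have : 1 + (l : ℂ) * Complex.exp (φ * Complex.I) =
        Complex.exp (φ * Complex.I) * (Complex.exp (-(φ * Complex.I)) + (l : ℂ)) := by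
      rw [mul_add, ← Complex.exp_add, add_neg_cancel, Complex.exp_zero]
      ring
    rw [this, norm_mul, Complex.norm_exp_ofReal_mul_I, one_mul]
  rw [h]
  have h2 := Complex.abs_im_le_norm (Complex.exp (-(φ * Complex.I)) + (l : ℂ))
  have h3 : (Complex.exp (-(φ * Complex.I)) + (l : ℂ)).im = -Real.sin φ := by
    have : -((φ : ℂ) * Complex.I) = ((-φ : ℝ) : ℂ) * Complex.I := by push_cast; ring
    rw [this, Complex.add_im, Complex.exp_ofReal_mul_I_im, Complex.ofReal_im, Real.sin_neg, add_zero]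
  rw [h3, abs_neg] at h2
  exact h2

/-- product form on the circle -/
lemma circle_prod {N : ℕ} (hN : 1 ≤ N) {t : ℝ} (h1 : Real.cos t < 1)
    (h2 : Real.cos t ≠ Real.cos (2 * Real.pi / ((N : ℝ) + 2))) :
    2 * ((Real.cos t - Real.cos (2 * Real.pi / ((N : ℝ) + 2)) : ℝ) : ℂ) *
      aeval (Complex.exp (t * Complex.I)) (FN N) =
    1 + ((2 * (1 - Real.cos (2 * Real.pi / ((N : ℝ) + 2))) * (Real.sin t / (1 - Real.cos t)) /
      (((N : ℝ) + 2) * (Real.cos t - Real.cos (2 * Real.pi / ((N : ℝ) + 2)))) *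
        Real.sin (((N : ℝ) + 2) * t / 2) : ℝ) : ℂ) *
        Complex.exp (((((N : ℝ) + 2) * t / 2 : ℝ) : ℂ) * Complex.I) := by
  set z := Complex.exp (t * Complex.I) with hz
  have hre : z.re = Real.cos t := by rw [hz, Complex.exp_ofReal_mul_I_re]
  have him : z.im = Real.sin t := by rw [hz, Complex.exp_ofReal_mul_I_im]
  have h := circle_form hN (Complex.norm_exp_ofReal_mul_I t) (by rw [← hz, hre]; exact h1)
  rw [← hz, hre, him] at h
  set c : ℝ := Real.cos (2 * Real.pi / ((N : ℝ) + 2)) with hc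
  set x : ℝ := Real.cos t with hx
  set φ : ℝ := ((N : ℝ) + 2) * t / 2 with hφ
  have hzM : z ^ (N + 2) = Complex.exp ((φ : ℂ) * Complex.I) * Complex.exp ((φ : ℂ) * Complex.I) := by
    rw [hz, ← Complex.exp_nat_mul, ← Complex.exp_add]
    congr 1
    rw [hφ]
    push_cast
    ring
  have hfac : Complex.I * (1 - z ^ (N + 2)) =
      2 * (Real.sin φ : ℂ) * Complex.exp ((φ : ℂ) * Complex.I) := by
    rw [hzM]
    have hs : (Real.sin φ : ℂ) = (Complex.exp (-((φ : ℂ) * Complex.I)) -
        Complex.exp ((φ : ℂ) * Complex.I)) * Complex.I / 2 := by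
      rw [Complex.ofReal_sin, Complex.sin]
      ring_nf
    rw [hs]
    have he : Complex.exp (-((φ : ℂ) * Complex.I)) * Complex.exp ((φ : ℂ) * Complex.I) = 1 := by
      rw [← Complex.exp_add, neg_add_cancel, Complex.exp_zero]
    linear_combination (-Complex.I) * he
  have hxc : ((x - c : ℝ) : ℂ) ≠ 0 := by
    have : x - c ≠ 0 := sub_ne_zero.mpr h2
    exact_mod_cast this
  have hM : ((N : ℂ) + 2) ≠ 0 := by
    have : ((N : ℝ) + 2) ≠ 0 := by positivity
    exact_mod_cast this
  apply mul_left_cancel₀ (mul_ne_zero hM hxc)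
  have e : ((1 - c : ℝ) : ℂ) * (Complex.I * ((Real.sin t / (1 - x) : ℝ) : ℂ)) * (1 - z ^ (N + 2)) =
      ((1 - c : ℝ) : ℂ) * ((Real.sin t / (1 - x) : ℝ) : ℂ) * (Complex.I * (1 - z ^ (N + 2))) := by
    ring
  rw [e, hfac] at h
  have e2 : ((2 * (1 - c) * (Real.sin t / (1 - x)) / (((N : ℝ) + 2) * (x - c)) *
      Real.sin φ : ℝ) : ℂ) = (2 * ((1 - c : ℝ) : ℂ) * ((Real.sin t / (1 - x) : ℝ) : ℂ) *
        (Real.sin φ : ℂ)) / (((N : ℂ) + 2) * ((x - c : ℝ) : ℂ)) := by
    push_cast
    ring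
  rw [e2]
  have e3 : ((N : ℂ) + 2) * ((x - c : ℝ) : ℂ) * (1 + (2 * ((1 - c : ℝ) : ℂ) *
      ((Real.sin t / (1 - x) : ℝ) : ℂ) * (Real.sin φ : ℂ)) / (((N : ℂ) + 2) * ((x - c : ℝ) : ℂ)) *
      Complex.exp ((φ : ℂ) * Complex.I)) = ((N : ℂ) + 2) * ((x - c : ℝ) : ℂ) +
      (2 * ((1 - c : ℝ) : ℂ) *
      ((Real.sin t / (1 - x) : ℝ) : ℂ) * (Real.sin φ : ℂ)) * Complex.exp ((φ : ℂ) * Complex.I) := by
    rw [mul_add, mul_one, ← mul_assoc, mul_div_cancel₀ _ (mul_ne_zero hM hxc)]
  rw [e3]
  linear_combination h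

/-- `|F_N(e^{it})| ≥ 1/(4 cos²(π/(N+2)))` for `0 ≤ t ≤ 3π/(N+2)`, `N ≥ 3`. -/
lemma norm_circle_small {N : ℕ} (hN : 3 ≤ N) {t : ℝ} (ht0 : 0 < t)
    (ht : t ≤ 3 * (Real.pi / ((N : ℝ) + 2)))
    (h2 : Real.cos t ≠ Real.cos (2 * Real.pi / ((N : ℝ) + 2))) :
    1 / (4 * Real.cos (Real.pi / ((N : ℝ) + 2)) ^ 2) ≤
      ‖aeval (Complex.exp (t * Complex.I)) (FN N)‖ := by
  have hN3 : (3 : ℝ) ≤ N := by exact_mod_cast hN
  have hM : (0 : ℝ) < (N : ℝ) + 2 := by positivity
  set θ : ℝ := Real.pi / ((N : ℝ) + 2) with hθ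
  have hθ0 : 0 < θ := by positivity
  have hMθ : ((N : ℝ) + 2) * θ = Real.pi := by rw [hθ]; field_simp
  have hcosθ := cos_ge (M := (N : ℝ) + 2) (by linarith)
  rw [← hθ] at hcosθ
  have hc2 : 2 * Real.pi / ((N : ℝ) + 2) = 2 * θ := by rw [hθ]; ring
  rw [hc2] at h2
  have hpi := Real.pi_pos
  have htπ : t < Real.pi := by nlinarith
  have h1 : Real.cos t < 1 := by
    have := Real.cos_lt_cos_of_nonneg_of_le_pi le_rfl htπ.le ht0
    rwa [Real.cos_zero] at this
  have hprod := circle_prod (N := N) (by omega) h1 (by rw [hc2]; exact h2)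
  rw [hc2] at hprod
  set c : ℝ := Real.cos (2 * θ) with hc
  set x : ℝ := Real.cos t with hx
  set φ : ℝ := ((N : ℝ) + 2) * t / 2 with hφ
  set F := aeval (Complex.exp (t * Complex.I)) (FN N) with hF
  have hcval : c = 2 * Real.cos θ ^ 2 - 1 := by rw [hc, Real.cos_two_mul]
  have hρ : 1 / (4 * Real.cos θ ^ 2) ≤ 1 / (4 * (4 / 5) ^ 2) := by
    apply one_div_le_one_div_of_le (by norm_num)
    have : (4 / 5 : ℝ) ^ 2 ≤ Real.cos θ ^ 2 := pow_le_pow_left₀ (by norm_num) hcosθ 2
    linarith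
  have hnorm : 2 * |x - c| * ‖F‖ = ‖1 + ((2 * (1 - c) * (Real.sin t / (1 - x)) /
      (((N : ℝ) + 2) * (x - c)) * Real.sin φ : ℝ) : ℂ) *
        Complex.exp ((φ : ℂ) * Complex.I)‖ := by
    rw [← hprod, norm_mul, norm_mul, Complex.norm_real, Real.norm_eq_abs]
    simp
  have hxc : 0 < |x - c| := abs_pos.mpr (sub_ne_zero.mpr h2)
  rcases le_or_gt t θ with h | h
  · -- t ≤ θ
    have hxc' : 0 < x - c := by
      have : c < x := by
        rw [hc, hx]
        apply Real.cos_lt_cos_of_nonneg_of_le_pi ht0.le _ (by linarith)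
        have : 2 * θ ≤ 2 * (Real.pi / 5) := by
          have : θ ≤ Real.pi / 5 := by
            rw [hθ]
            apply div_le_div_of_nonneg_left hpi.le (by norm_num) (by linarith)
          linarith
        linarith
      linarith
    have hφ1 : 0 ≤ φ := by positivity
    have hφ2 : φ ≤ Real.pi / 2 := by
      rw [hφ]
      nlinarith
    have hre : 1 ≤ (1 + ((2 * (1 - c) * (Real.sin t / (1 - x)) /
      (((N : ℝ) + 2) * (x - c)) * Real.sin φ : ℝ) : ℂ) *
        Complex.exp ((φ : ℂ) * Complex.I)).re := by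
      rw [Complex.add_re, Complex.one_re, Complex.re_ofReal_mul, Complex.exp_ofReal_mul_I_re]
      have a1 : 0 ≤ Real.cos φ := Real.cos_nonneg_of_mem_Icc ⟨by linarith, hφ2⟩
      have a2 : 0 ≤ Real.sin φ := Real.sin_nonneg_of_nonneg_of_le_pi hφ1 (by linarith)
      have a3 : 0 ≤ Real.sin t := Real.sin_nonneg_of_nonneg_of_le_pi ht0.le htπ.le
      have a4 : 0 ≤ 1 - c := by rw [hc]; linarith [Real.cos_le_one (2 * θ)]
      have a5 : 0 < 1 - x := by linarith
      have : 0 ≤ 2 * (1 - c) * (Real.sin t / (1 - x)) / (((N : ℝ) + 2) * (x - c)) *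
        Real.sin φ * Real.cos φ := by positivity
      linarith
    have h3 := hre.trans (Complex.re_le_norm _)
    rw [← hnorm, abs_of_pos hxc'] at h3
    have h4 : x - c ≤ 18 / 25 := by
      rw [hcval]
      nlinarith
    have h5 : 25 / 36 ≤ ‖F‖ := by
      have : 2 * (x - c) * ‖F‖ ≤ 2 * (18 / 25) * ‖F‖ := by
        apply mul_le_mul_of_nonneg_right _ (norm_nonneg _)
        linarith
      linarith
    have h6 : (1 : ℝ) / (4 * (4 / 5) ^ 2) ≤ 25 / 36 := by norm_num
    linarith
  · -- θ < t ≤ 3θ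
    have h3 := norm_line_ge (2 * (1 - c) * (Real.sin t / (1 - x)) /
      (((N : ℝ) + 2) * (x - c)) * Real.sin φ) φ
    rw [← hnorm] at h3
    set v : ℝ := |t / 2 - θ| with hv
    have hv1 : v ≤ θ / 2 := by
      rw [hv, abs_le]
      constructor <;> linarith
    have hv0 : 0 ≤ v := abs_nonneg _
    have hsin1 : |Real.sin φ| = Real.sin (((N : ℝ) + 2) * v) := by
      have e1 : φ = ((N : ℝ) + 2) * (t / 2 - θ) + Real.pi := by
        rw [hφ]
        linear_combination hMθ
      have e2 : |Real.sin φ| = |Real.sin (((N : ℝ) + 2) * (t / 2 - θ))| := by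
        rw [e1, Real.sin_add_pi, abs_neg]
      have e3 : ((N : ℝ) + 2) * v = |((N : ℝ) + 2) * (t / 2 - θ)| := by
        rw [abs_mul, abs_of_pos hM]
      have e4 : 0 ≤ Real.sin (((N : ℝ) + 2) * v) := by
        apply Real.sin_nonneg_of_nonneg_of_le_pi (by positivity)
        nlinarith
      rw [e2]
      rw [e3] at e4 ⊢
      rcases abs_cases (((N : ℝ) + 2) * (t / 2 - θ)) with ⟨h7, _⟩ | ⟨h7, _⟩
      · rw [h7] at e4 ⊢
        rw [abs_of_nonneg e4]
      · rw [h7] at e4 ⊢
        rw [Real.sin_neg] at e4 ⊢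
        rw [abs_of_nonpos (by linarith)]
    have hsin2 : 2 / Real.pi * (((N : ℝ) + 2) * v) ≤ Real.sin (((N : ℝ) + 2) * v) := by
      apply Real.mul_le_sin (by positivity)
      nlinarith
    have hxc2 : |x - c| ≤ 5 * θ * v := by
      have e1 : x - c = -2 * Real.sin ((t + 2 * θ) / 2) * Real.sin ((t - 2 * θ) / 2) := by
        rw [hx, hc, Real.cos_sub_cos]
      have e2 : |x - c| = 2 * |Real.sin ((t + 2 * θ) / 2)| * |Real.sin ((t - 2 * θ) / 2)| := by
        rw [e1, abs_mul, abs_mul]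
        norm_num
      have e3 : |Real.sin ((t - 2 * θ) / 2)| ≤ v := by
        have := Real.abs_sin_le_abs (x := (t - 2 * θ) / 2)
        have e4 : |(t - 2 * θ) / 2| = v := by rw [hv]; congr 1; ring
        rwa [e4] at this
      have e5 : |Real.sin ((t + 2 * θ) / 2)| ≤ 5 * θ / 2 := by
        have := Real.abs_sin_le_abs (x := (t + 2 * θ) / 2)
        rw [abs_of_pos (show 0 < (t + 2 * θ) / 2 by linarith)] at this
        linarith
      rw [e2]
      calc 2 * |Real.sin ((t + 2 * θ) / 2)| * |Real.sin ((t - 2 * θ) / 2)| ≤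
          2 * (5 * θ / 2) * v := by gcongr
        _ = 5 * θ * v := by ring
    rw [hsin1] at h3
    have h8 : 2 / Real.pi * (((N : ℝ) + 2) * v) ≤ 2 * (5 * θ * v) * ‖F‖ := by
      calc 2 / Real.pi * (((N : ℝ) + 2) * v) ≤ _ := hsin2
        _ ≤ 2 * |x - c| * ‖F‖ := h3
        _ ≤ 2 * (5 * θ * v) * ‖F‖ := by gcongr
    have hvpos : 0 < v := by
      rw [hv]
      apply abs_pos.mpr
      intro h9
      apply h2
      have : t = 2 * θ := by linarith
      rw [hx, hc, this]
    have h10 : 2 / Real.pi * ((N : ℝ) + 2) ≤ 10 * θ * ‖F‖ := by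
      have : v * (2 / Real.pi * ((N : ℝ) + 2)) ≤ v * (10 * θ * ‖F‖) := by nlinarith
      exact le_of_mul_le_mul_left this hvpos
    have h11 : ((N : ℝ) + 2) ^ 2 / (5 * Real.pi ^ 2) ≤ ‖F‖ := by
      rw [div_le_iff₀ (by positivity)]
      have h12 : 2 / Real.pi * ((N : ℝ) + 2) * (((N : ℝ) + 2) * Real.pi / 2) ≤
          10 * θ * ‖F‖ * (((N : ℝ) + 2) * Real.pi / 2) := by
        apply mul_le_mul_of_nonneg_right h10 (by positivity)
      have h13 : 2 / Real.pi * ((N : ℝ) + 2) * (((N : ℝ) + 2) * Real.pi / 2) =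
          ((N : ℝ) + 2) ^ 2 := by
        field_simp
      have h14 : 10 * θ * ‖F‖ * (((N : ℝ) + 2) * Real.pi / 2) =
          ‖F‖ * (5 * Real.pi ^ 2) := by
        calc 10 * θ * ‖F‖ * (((N : ℝ) + 2) * Real.pi / 2) =
            5 * (((N : ℝ) + 2) * θ) * Real.pi * ‖F‖ := by ring
          _ = _ := by rw [hMθ]; ring
      rw [h13, h14] at h12
      exact h12
    have h15 : (1 : ℝ) / (4 * (4 / 5) ^ 2) ≤ ((N : ℝ) + 2) ^ 2 / (5 * Real.pi ^ 2) := by
      rw [div_le_div_iff₀ (by norm_num) (by positivity)]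
      have h16 : Real.pi ^ 2 ≤ 3.15 ^ 2 := by
        apply pow_le_pow_left₀ hpi.le
        linarith [Real.pi_lt_d2]
      nlinarith
    linarith


/-- real part bound for `cos t ≤ cos (3π/(N+2))`. -/
lemma norm_circle_large {N : ℕ} (hN : 3 ≤ N) {t : ℝ}
    (ht : Real.cos t ≤ xk (N + 1) 2) :
    1 / (4 * Real.cos (Real.pi / ((N : ℝ) + 2)) ^ 2) ≤
      ‖aeval (Complex.exp (t * Complex.I)) (FN N)‖ := by
  obtain ⟨c0, h1, h2, h3⟩ := exists_c0 (n := N + 1) (by omega)
  -- Cp is antitone on [-1, c0]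
  have hC : ∀ x, -1 ≤ x → x ≤ 1 → 0 ≤ (x - c0) * (derivative (Cp N)).eval x := by
    intro x hx1 hx2
    by_cases hne : x = xk (N + 1) 1
    · rw [hne]
      exact mul_nonneg (by linarith) (Cp_deriv_c hN).le
    · have h4 := h3 x hx1 hx2
      rw [Psi_eq hN] at h4
      simp only [eval_mul, eval_pow, eval_sub, eval_X, eval_C, eval_ofNat] at h4
      have h5 : 0 < (x - xk (N + 1) 1) ^ 2 := by
        have := sub_ne_zero.mpr hne
        positivity
      have h6 : 0 ≤ (2 * (x - xk (N + 1) 1) ^ 2) *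
          ((x - c0) * (derivative (Cp N)).eval x) := by
        calc 0 ≤ _ := h4
          _ = _ := by ring
      exact nonneg_of_mul_nonneg_right h6 (by positivity)
  have hanti : AntitoneOn (fun x => (Cp N).eval x) (Set.Icc (-1) c0) := by
    apply antitoneOn_of_deriv_nonpos (convex_Icc _ _) (Cp N).continuous.continuousOn
    · intro x _
      exact ((Cp N).hasDerivAt x).differentiableAt.differentiableWithinAt
    · intro x hx
      rw [interior_Icc] at hx
      rw [((Cp N).hasDerivAt x).deriv]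
      have hc01 : c0 < 1 := lt_of_le_of_lt h2 (xk_lt_one (by omega))
      have := hC x hx.1.le (by linarith [hx.2])
      by_contra hcon
      push Not at hcon
      have := mul_neg_of_neg_of_pos (show x - c0 < 0 by linarith [hx.2]) hcon
      linarith
  have hm1 : -1 ≤ c0 := (neg_one_lt_xk (by omega)).le.trans h1
  have h4 := hanti (⟨le_rfl, hm1⟩ : (-1 : ℝ) ∈ Set.Icc (-1) c0)
    (⟨Real.neg_one_le_cos t, ht.trans h1⟩ : Real.cos t ∈ Set.Icc (-1) c0) (Real.neg_one_le_cos t)
  simp only at h4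
  rw [Cp_eval_cos] at h4
  have h5 : (Cp N).eval (-1) = (FN N).eval (-1) := by
    have h := Cp_eval_cos N Real.pi
    rw [Real.cos_pi, Complex.exp_pi_mul_I] at h
    rw [h]
    have := aeval_ofReal' (FN N) (-1)
    have h6 : ((-1 : ℝ) : ℂ) = -1 := by simp
    rw [h6] at this
    rw [this, Complex.ofReal_re]
  rw [h5, FN_eval_neg_one (by omega)] at h4
  have h7 := Complex.abs_re_le_norm (aeval (Complex.exp (t * Complex.I)) (FN N))
  have h8 := neg_abs_le (aeval (Complex.exp (t * Complex.I)) (FN N)).re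
  linarith

/-- On the unit circle `|F_N| ≥ 1/(4 cos²(π/(N+2)))`, for all `N ≥ 1`. -/
theorem norm_circle_ge {N : ℕ} (hN : 1 ≤ N) {z : ℂ} (hz : ‖z‖ = 1) :
    1 / (4 * Real.cos (Real.pi / ((N : ℝ) + 2)) ^ 2) ≤ ‖aeval z (FN N)‖ := by
  rcases lt_or_ge N 3 with h | h
  · interval_cases N
    · rw [aeval_FN]
      have : Real.pi / (((1 : ℕ) : ℝ) + 2) = Real.pi / 3 := by norm_num
      rw [this, Real.cos_pi_div_three]
      simp [coef_one, hz]
      norm_num
    · rw [aeval_FN]
      have : Real.pi / (((2 : ℕ) : ℝ) + 2) = Real.pi / 4 := by norm_num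
      rw [this, Real.cos_pi_div_four]
      have e : Icc 1 2 = {1, 2} := by decide
      rw [e]
      simp only [mem_singleton, OfNat.one_ne_ofNat, not_false_eq_true, sum_insert, sum_singleton,
        coef_one (le_refl 1 |>.trans one_le_two), coef_two_two, pow_one, Complex.ofReal_one, one_mul]
      have h2 : z + ((1 / 2 : ℝ) : ℂ) * z ^ 2 = z * (1 + z / 2) := by push_cast; ring
      rw [h2, norm_mul, hz, one_mul]
      have h3 : ‖(1 : ℂ)‖ - ‖-(z / 2)‖ ≤ ‖(1 : ℂ) - (-(z / 2))‖ := norm_sub_norm_le _ _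
      rw [norm_neg, norm_div, hz, sub_neg_eq_add] at h3
      simp at h3
      have h4 : 1 / (4 * (√2 / 2) ^ 2) = (1 / 2 : ℝ) := by
        rw [div_pow, Real.sq_sqrt (by norm_num)]
        norm_num
      rw [h4]
      linarith
  · -- reduce to the upper half circle
    have upper : ∀ t : ℝ, 0 ≤ t → t ≤ Real.pi →
        1 / (4 * Real.cos (Real.pi / ((N : ℝ) + 2)) ^ 2) ≤
          ‖aeval (Complex.exp (t * Complex.I)) (FN N)‖ := by
      set ρ := 1 / (4 * Real.cos (Real.pi / ((N : ℝ) + 2)) ^ 2) with hρ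
      set g : ℝ → ℝ := fun t => ‖aeval (Complex.exp (t * Complex.I)) (FN N)‖ with hg
      have hgc : Continuous g := by
        have h1 : Continuous (fun t : ℝ => Complex.exp (t * Complex.I)) := by fun_prop
        exact ((FN N).continuous_aeval.comp h1).norm
      have hM : (0 : ℝ) < (N : ℝ) + 2 := by positivity
      have hN3 : (3 : ℝ) ≤ N := by exact_mod_cast h
      have hθ5 : Real.pi / ((N : ℝ) + 2) ≤ Real.pi / 5 := by
        apply div_le_div_of_nonneg_left Real.pi_pos.le (by norm_num) (by linarith)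
      have hθ0 : 0 < Real.pi / ((N : ℝ) + 2) := by positivity
      -- all t except 0 and the exceptional angle
      have key : ∀ t : ℝ, 0 < t → t ≤ Real.pi →
          t ≠ 2 * (Real.pi / ((N : ℝ) + 2)) → ρ ≤ g t := by
        intro t h0 h1 h2
        rcases le_or_gt t (3 * (Real.pi / ((N : ℝ) + 2))) with h3 | h3
        · apply norm_circle_small h h0 h3
          intro hcos
          apply h2
          have e : 2 * Real.pi / ((N : ℝ) + 2) = 2 * (Real.pi / ((N : ℝ) + 2)) := by ring
          rw [e] at hcos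
          exact Real.injOn_cos ⟨h0.le, h1⟩ ⟨by positivity, by linarith [Real.pi_pos]⟩ hcos
        · apply norm_circle_large h
          rw [xk2_eq]
          push_cast
          have e : ((N : ℝ) + 1 + 1) = (N : ℝ) + 2 := by ring
          rw [e]
          exact Real.cos_le_cos_of_nonneg_of_le_pi (by positivity) h1 h3.le
      have lim : ∀ t0 : ℝ, 0 ≤ t0 → t0 < Real.pi →
          (∀ᶠ t in nhdsWithin t0 (Set.Ioi t0), ρ ≤ g t) → ρ ≤ g t0 := by
        intro t0 _ _ hev
        exact ge_of_tendsto ((hgc.tendsto t0).mono_left nhdsWithin_le_nhds) hev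
      intro t h0 h1
      rcases h0.eq_or_lt with h2 | h2
      · rw [← h2]
        apply lim 0 le_rfl Real.pi_pos
        have : Set.Ioo (0 : ℝ) (Real.pi / ((N : ℝ) + 2)) ∈ nhdsWithin (0 : ℝ) (Set.Ioi 0) :=
          Ioo_mem_nhdsGT hθ0
        filter_upwards [this] with s hs
        apply key s hs.1 (by linarith [hs.2, Real.pi_pos])
        intro h3
        rw [h3] at hs
        linarith [hs.2]
      · by_cases h3 : t = 2 * (Real.pi / ((N : ℝ) + 2))
        · have h4 : t < Real.pi := by rw [h3]; linarith [Real.pi_pos]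
          apply lim t h0 h4
          have : Set.Ioo t Real.pi ∈ nhdsWithin t (Set.Ioi t) := Ioo_mem_nhdsGT h4
          filter_upwards [this] with s hs
          apply key s (by linarith [hs.1]) hs.2.le
          rw [← h3]
          exact hs.1.ne'
        · exact key t h2 h1 h3
    have harg : z = Complex.exp (z.arg * Complex.I) := by
      have := Complex.norm_mul_exp_arg_mul_I z
      rw [hz] at this
      simpa using this.symm
    rcases le_or_gt 0 z.arg with h5 | h5
    · rw [harg]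
      exact upper _ h5 (Complex.arg_le_pi z)
    · have h6 := upper (-z.arg) (by linarith) (by linarith [Complex.neg_pi_lt_arg z])
      have h7 : Complex.exp (((-z.arg : ℝ) : ℂ) * Complex.I) = starRingEnd ℂ z := by
        conv_rhs => rw [harg]
        rw [← Complex.exp_conj]
        congr 1
        simp
      rw [h7, aeval_conj, Complex.norm_conj] at h6
      exact h6

/-- a continuous map of the closed disc, open on the open disc, covers the ball below its minimum
modulus on the circle. -/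
lemma ball_subset_image (p : ℝ[X]) (h0 : p.coeff 0 = 0) (h1 : p.coeff 1 = 1) {r : ℝ}
    (hr : ∀ z : ℂ, ‖z‖ = 1 → r ≤ ‖aeval z p‖) :
    Metric.ball (0 : ℂ) r ⊆ (fun z : ℂ => aeval z p) '' Metric.ball (0 : ℂ) 1 := by
  rcases le_or_gt r 0 with hr0 | hr0
  · intro w hw
    rw [mem_ball_zero_iff] at hw
    have := norm_nonneg w
    linarith
  set f : ℂ → ℂ := fun z => aeval z p with hf
  have hfc : Continuous f := p.continuous_aeval
  have han : AnalyticOnNhd ℂ f (Metric.ball 0 1) :=
    (p.differentiable_aeval.differentiableOn).analyticOnNhd Metric.isOpen_ball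
  have hopen : IsOpen (f '' Metric.ball 0 1) := by
    rcases han.is_constant_or_isOpen (convex_ball (0 : ℂ) 1).isPreconnected with ⟨w, hw⟩ | hop
    · exfalso
      have hd : HasDerivAt f 1 0 := by
        have := p.hasDerivAt_aeval (0 : ℂ)
        have e : aeval (0 : ℂ) (derivative p) = 1 := by
          have := aeval_ofReal' (derivative p) 0
          simp only [Complex.ofReal_zero] at this
          rw [this, ← coeff_zero_eq_eval_zero, coeff_derivative, h1]
          simp
        rwa [e] at this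
      have hc : f =ᶠ[nhds 0] fun _ => w := by
        filter_upwards [Metric.ball_mem_nhds (0 : ℂ) one_pos] with z hz
        exact hw z hz
      have := hd.unique ((hasDerivAt_const (0 : ℂ) w).congr_of_eventuallyEq hc)
      exact one_ne_zero this
    · exact hop _ subset_rfl Metric.isOpen_ball
  have hK : IsCompact (f '' Metric.closedBall 0 1) := (isCompact_closedBall 0 1).image hfc
  have hpre : IsPreconnected (Metric.ball (0 : ℂ) r) := (convex_ball (0 : ℂ) r).isPreconnected
  have h00 : f 0 = 0 := by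
    have := aeval_ofReal' p 0
    simp only [Complex.ofReal_zero] at this
    rw [hf]
    simp only
    rw [this, ← coeff_zero_eq_eval_zero, h0]
    simp
  have hcov : Metric.ball (0 : ℂ) r ⊆ f '' Metric.ball 0 1 ∪ (f '' Metric.closedBall 0 1)ᶜ := by
    intro w hw
    by_cases hin : w ∈ f '' Metric.closedBall 0 1
    · left
      obtain ⟨z, hz, rfl⟩ := hin
      refine ⟨z, ?_, rfl⟩
      rw [mem_closedBall_zero_iff] at hz
      rw [mem_ball_zero_iff]
      rcases hz.eq_or_lt with h | h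
      · exfalso
        have := hr z h
        rw [mem_ball_zero_iff] at hw
        exact absurd this (not_le.mpr hw)
      · exact h
    · right; exact hin
  have := hpre.subset_left_of_subset_union hopen hK.isClosed.isOpen_compl
    (by
      rw [Set.disjoint_left]
      rintro w ⟨z, hz, rfl⟩ hw
      exact hw ⟨z, Metric.ball_subset_closedBall hz, rfl⟩) hcov
    ⟨0, by simpa using hr0, 0, by simp, h00⟩
  exact this

end Pool.Agent.Helper766
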